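import Pool.Agent.Y166.LT.Defs

/-!
# Accumulating components, second version

The version of the definition in which the map from the component `N` to the component `M` is also
generically finite.
-/

set_option autoImplicit false
set_option linter.unusedSectionVars false

namespace Pool.Agent.Y166.LT

open MvPolynomial Pool.Agent.Y166.GM Pool.Agent.Y166.SM

section
variable {k : Type} [Field k] {σ τ : Type} {e d : ℕ}

/-- The component `M` of the space of the morphisms of bidegree `(e, d)` from the projective line to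
`X` is accumulating: there are a breaking morphism `f : Y → X`, generically finite onto its image,
from a projective variety `Y`, and a component `N` of the space of the morphisms from the projective
line to `Y`, such that the composition with `f` is a generically finite dominant map from `N` to
`M`. -/
def AccLF (n : ℕ) {X : Set (PP k (σ × τ))} (M : Set (MorBi X e d)) : Prop :=
  ∃ (m : ℕ) (Y : Set (PP k (Fin (m + 1)))) (f : PP k (Fin (m + 1)) → PP k (σ × τ)),
    IsProjVar Y ∧ IsMorphism Y f ∧ Set.MapsTo f Y X ∧ GenFinite Y f ∧ BreakingL n X Y f ∧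
    ∃ (e₁ : ℕ), ∃ N ∈ irreducibleComponents (Mor Y e₁),
      (∀ g ∈ N, ∃ h ∈ M, Pool.Agent.Y198.MC.IsCompBi f g.1 h.1) ∧
      M ⊆ closure {h | h ∈ M ∧ ∃ g ∈ N, Pool.Agent.Y198.MC.IsCompBi f g.1 h.1} ∧
      ∃ U : Set (Mor Y e₁), IsOpen U ∧ (U ∩ N).Nonempty ∧
        ∀ h : MorBi X e d, {g | g ∈ U ∩ N ∧ Pool.Agent.Y198.MC.IsCompBi f g.1 h.1}.Finite

/-- The Manin components of the space of the morphisms of bidegree `(e, d)` from the projective line
to the variety `X` of dimension `n`. -/
def maninLF (n : ℕ) (X : Set (PP k (σ × τ))) (e d : ℕ) : Set (Set (MorBi X e d)) :=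
  {M | M ∈ irreducibleComponents (MorBi X e d) ∧ ¬ AccLF n M}

theorem maninL_sub (n : ℕ) (X : Set (PP k (σ × τ))) (e d : ℕ) :
    maninL n X e d ⊆ maninLF n X e d := by
  rintro M ⟨h1, h2⟩
  refine ⟨h1, ?_⟩
  rintro ⟨m, Y, f, hY, hf, hfX, hfin, hb, e₁, N, hN, ha, hd, _⟩
  exact h2 ⟨m, Y, f, hY, hf, hfX, hfin, hb, e₁, N, hN, ha, hd⟩

end

end Pool.Agent.Y166.LT
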