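import Pool.Agent.Y166.LT.DefsF

/-! The anticanonical bundle of `X`: assembly. -/

set_option autoImplicit false
set_option linter.unusedSectionVars false

namespace Pool.Agent.Y166.LT.FANO

open MvPolynomial Pool.Agent.Y166.LT Pool.Agent.Y198.MC

theorem cub_tt {A : Type} [CommRing A] {N : ℕ} (u v : Fin N → A) (c : Fin 4 → A) (p q : Fin N)
    (n : Fin 4) : cub u v c (tt p q n) = GG (u p) (v p) (u q) (v q) c n := by
  fin_cases n <;> simp [GG, cub, tt]

section
variable {k : Type} [Field k] {r : ℕ}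

theorem pd_U (π : Equiv.Perm (Fin (r + 2))) (l : Fin 3) (a : Fin (r + 2)) :
    pderiv (R := k) (.inr l) (Up π X a) = 0 := by
  unfold Up U0
  generalize π.symm a = b
  refine Fin.cases ?_ (fun i => ?_) b
  · simp
  · refine Fin.cases ?_ (fun i => ?_) i
    · simp
    · simp only [Fin.cons_succ]
      rw [pderiv_X_of_ne]
      simp

theorem pd_V (π : Equiv.Perm (Fin (r + 2))) (l : Fin 3) (a : Fin (r + 2)) :
    pderiv (R := k) (.inr l) (Vp π X a) = 0 := by
  unfold Vp V0
  generalize π.symm a = b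
  refine Fin.cases ?_ (fun i => ?_) b
  · simp
  · refine Fin.cases ?_ (fun i => ?_) i
    · simp
    · simp only [Fin.cons_succ]
      rw [pderiv_X_of_ne]
      simp

theorem pd_wdg (π : Equiv.Perm (Fin (r + 2))) (l : Fin 3) (s : Sg (r + 2)) :
    pderiv (R := k) (.inr l) (wdg (Up π X) (Vp π X) s) = 0 := by
  simp [wdg, Derivation.leibniz, pd_U, pd_V]

theorem pd_c (m : Fin 4) (l : Fin 3) (n : Fin 4) :
    pderiv (R := k) (.inr l) (cm m (fun n => (X (.inr n) : MvPolynomial (Ch r) k)) n) =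
      (Pi.single (m.succAbove l) 1 : Fin 4 → MvPolynomial (Ch r) k) n := by
  unfold cm
  rcases Fin.eq_self_or_eq_succAbove m n with h | ⟨n', h⟩
  · rw [h, Fin.insertNth_apply_same, Pi.single_eq_of_ne (Fin.succAbove_ne m l).symm]
    simp
  · rw [h, Fin.insertNth_apply_succAbove]
    by_cases hn : n' = l
    · rw [hn, pderiv_X_self, Pi.single_eq_same]
    · rw [pderiv_X_of_ne (by simpa using fun h => hn h), Pi.single_eq_of_ne]
      intro h'
      exact hn (Fin.succAbove_right_injective h')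

theorem pd_cub (π : Equiv.Perm (Fin (r + 2))) (m : Fin 4) (l : Fin 3) (t : Ta (r + 2)) :
    pderiv (R := k) (.inr l) (cub (Up π X) (Vp π X) (cm m fun n => X (.inr n)) t) =
      cub (Up π X) (Vp π X) (Pi.single (m.succAbove l) 1) t := by
  simp only [cub, map_add, Derivation.leibniz, pd_U, pd_V, pd_c, smul_zero, add_zero, zero_add,
    smul_eq_mul, mul_zero]
  ring

end

theorem done (h1 : S_FCH) (h2 : S_FJA) (h3 : S_FJC) : S_FANO := by
  intro k _ N hN
  obtain ⟨s, rfl⟩ : ∃ s, N = (s + 4) + 2 := ⟨N - 6, by omega⟩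
  set r := s + 4 with hr
  obtain ⟨hc1, hc2⟩ := h1 k r (by omega)
  refine ⟨Ch r, Equiv.Perm (Fin (r + 2)) × Fin 4, inferInstance, inferInstance, jF, rF, vF k, ?_,
    hc1, hc2, ?_⟩
  · simp only [Fintype.card_sum, Fintype.card_prod, Fintype.card_fin]
    omega
  rintro ⟨π, m⟩ ⟨π', m'⟩
  set u : Fin (r + 2) → MvPolynomial (Ch r) k := Up π X with hu
  set v : Fin (r + 2) → MvPolynomial (Ch r) k := Vp π X with hv
  set c : Fin 4 → MvPolynomial (Ch r) k := cm m (fun n => X (.inr n)) with hc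
  set δ : MvPolynomial (Ch r) k := wdg u v (π' 0, π' 1) with hδ
  set G : Fin 4 → MvPolynomial (Ch r) k := fun n => cub u v c (tt (π' 0) (π' 1) n) with hG
  set w : Fin r × Fin 2 → MvPolynomial (Ch r) k := fun p =>
    wdg u v (if p.2 = 0 then (π' p.1.succ.succ, π' 1) else (π' 0, π' p.1.succ.succ)) with hw
  have e1 : vF k (π, m) (jF (π', m')) = δ * G m' := rfl
  have e2 : ∀ p, vF k (π, m) (rF (π', m') (.inl p)) = w p * G m' := fun p => rfl
  have e3 : ∀ n, vF k (π, m) (rF (π', m') (.inr n)) = δ * G (m'.succAbove n) := fun n => rfl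
  have e4 : vF k (π, m) ((jF (π', m')).1, (jF (π, m)).2) = δ := by
    have e5 : vF k (π, m) ((jF (π', m')).1, (jF (π, m)).2) =
      δ * vF k (π, m) (jF (π, m)) := by
      have e6 : vF k (π, m) (jF (π, m)) = wdg u v (π 0, π 1) * cub u v c (tt (π 0) (π 1) m) := rfl
      have e7 : wdg u v (π 0, π 1) = 1 := by
        simp [wdg, hu, hv, Up, Vp, U0, V0]
      rw [e6, e7, one_mul]
      rfl
    rw [e5, (hc1 (π, m)).one, mul_one]
  -- the Jacobian matrix
  have hpδ : ∀ l, pderiv (R := k) (.inr l) δ = 0 := fun l => pd_wdg π l _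
  have hpw : ∀ l p, pderiv (R := k) (.inr l) (w p) = 0 := fun l p => pd_wdg π l _
  set A₀ : Matrix (Fin r × Fin 2) (Fin r × Fin 2) (MvPolynomial (Ch r) k) :=
    Matrix.of fun p q => pderiv (.inl q) (w p) * δ - w p * pderiv (.inl q) δ with hA₀
  set D₀ : Matrix (Fin 3) (Fin 3) (MvPolynomial (Ch r) k) :=
    Matrix.of fun n l => pderiv (.inr l) (G (m'.succAbove n)) * G m' -
      G (m'.succAbove n) * pderiv (.inr l) (G m') with hD₀
  have hmat : (Matrix.of fun i l => pderiv l (vF k (π, m) (rF (π', m') i)) *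
      vF k (π, m) (jF (π', m')) - vF k (π, m) (rF (π', m') i) *
        pderiv l (vF k (π, m) (jF (π', m')))) =
      Matrix.fromBlocks ((G m') ^ 2 • A₀) 0
        (Matrix.of fun (n : Fin 3) (q : Fin r × Fin 2) =>
          pderiv (.inl q) (vF k (π, m) (rF (π', m') (.inr n))) *
      vF k (π, m) (jF (π', m')) - vF k (π, m) (rF (π', m') (.inr n)) *
        pderiv (.inl q) (vF k (π, m) (jF (π', m')))) (δ ^ 2 • D₀) := by
    ext i l
    rcases i with p | n
    · rcases l with q | l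
      · rw [Matrix.of_apply, Matrix.fromBlocks_apply₁₁, Matrix.smul_apply, hA₀, Matrix.of_apply,
          e1, e2, smul_eq_mul]
        simp only [Derivation.leibniz, smul_eq_mul]
        ring
      · rw [Matrix.of_apply, Matrix.fromBlocks_apply₁₂, Matrix.zero_apply, e1, e2]
        simp only [Derivation.leibniz, smul_eq_mul, hpδ, hpw]
        ring
    · rcases l with q | l
      · rw [Matrix.of_apply, Matrix.fromBlocks_apply₂₁, Matrix.of_apply]
      · rw [Matrix.of_apply, Matrix.fromBlocks_apply₂₂, Matrix.smul_apply, hD₀, Matrix.of_apply,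
          e1, e3, smul_eq_mul]
        simp only [Derivation.leibniz, smul_eq_mul, hpδ]
        ring
  have hdet : jac (fun i => vF k (π, m) (rF (π', m') i)) (vF k (π, m) (jF (π', m'))) =
      (G m' ^ 2) ^ (r * 2) * A₀.det * ((δ ^ 2) ^ 3 * D₀.det) := by
    unfold jac
    rw [hmat, Matrix.det_fromBlocks_zero₁₂, Matrix.det_smul, Matrix.det_smul]
    simp only [Fintype.card_prod, Fintype.card_fin]
  have hA := h2 k r π π' u v hu hv w δ (fun i => rfl) (fun i => rfl) rfl
  obtain ⟨ε, hε, hD⟩ := h3 (MvPolynomial (Ch r) k) (u (π' 0)) (v (π' 0)) (u (π' 1)) (v (π' 1)) m m'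
    (fun n => X (.inr n))
  have hGG : ∀ n, GG (u (π' 0)) (v (π' 0)) (u (π' 1)) (v (π' 1)) c n = G n := fun n =>
    (cub_tt u v c (π' 0) (π' 1) n).symm
  have hD' : D₀.det = (ε : MvPolynomial (Ch r) k) * δ ^ 6 * G m' ^ 2 := by
    have e5 : D₀ = (Matrix.of fun n l : Fin 3 =>
      GG (u (π' 0)) (v (π' 0)) (u (π' 1)) (v (π' 1)) (Pi.single (m.succAbove l) 1)
          (m'.succAbove n) * GG (u (π' 0)) (v (π' 0)) (u (π' 1)) (v (π' 1)) c m' -
        GG (u (π' 0)) (v (π' 0)) (u (π' 1)) (v (π' 1)) c (m'.succAbove n) *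
          GG (u (π' 0)) (v (π' 0)) (u (π' 1)) (v (π' 1)) (Pi.single (m.succAbove l) 1) m') := by
      ext n l : 2
      rw [hD₀, Matrix.of_apply, Matrix.of_apply, hGG, hGG, ← cub_tt, ← cub_tt]
      have e6 : ∀ n, pderiv (R := k) (.inr l) (G n) =
          cub u v (Pi.single (m.succAbove l) 1) (tt (π' 0) (π' 1) n) := fun n =>
        pd_cub π m l _
      rw [e6, e6]
    rw [e5, hD, hGG]
    rfl
  refine ⟨(ε : k), ?_, ?_⟩
  · rcases hε with h | h <;> rw [h] <;> simp
  · rw [e4, hdet, e1, hD']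
    have e5 : (C (ε : k) : MvPolynomial (Ch r) k) = (ε : MvPolynomial (Ch r) k) := by
      simp
    have e6 : s + 4 + 2 - 6 = s := by omega
    have e7 : 2 * (2 * (s + 4 + 2) - 1) = 4 * r + 6 := by omega
    rw [e5, e7]
    have e8 : r + 2 - 6 = s := by omega
    rw [e8]
    have e9 : δ ^ (4 * r + 6) = δ ^ (3 * r) * δ ^ s * δ ^ 10 := by
      rw [← pow_add, ← pow_add]
      congr 1
      omega
    have e10 : (G m' ^ 2) ^ (r * 2) = G m' ^ (4 * r) := by
      rw [← pow_mul]
      congr 1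
      ring
    rw [mul_pow (δ) (G m') (4 * r + 6), e9, ← hA, e10]
    ring

end Pool.Agent.Y166.LT.FANO
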