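import Pool.Agent.Y166.LT.DefsF

/-! The Jacobian determinant for the fibre. -/

set_option autoImplicit false
set_option linter.unusedSectionVars false

namespace Pool.Agent.Y166.LT.FJC

open Pool.Agent.Y166.LT Pool.Agent.Y198.MC

section
variable {R : Type} [CommRing R]

theorem key (T : Matrix (Fin 4) (Fin 4) R) (x : Fin 3 → R) (y : Fin 4 → R)
    (hy : ∀ n, y n = T n 0 + ∑ l : Fin 3, T n l.succ * x l) :
    (Matrix.of fun n l : Fin 3 => T n.succ l.succ * y 0 - y n.succ * T 0 l.succ).det =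
      T.det * y 0 ^ 2 := by
  have h0 := hy 0
  have h1 := hy 1
  have h2 := hy 2
  have h3 := hy 3
  simp only [Fin.sum_univ_three] at h0 h1 h2 h3
  have e1 : (Fin.succ 0 : Fin 4) = 1 := rfl
  have e2 : (Fin.succ 1 : Fin 4) = 2 := rfl
  have e3 : (Fin.succ 2 : Fin 4) = 3 := rfl
  rw [e1, e2, e3] at h0 h1 h2 h3
  rw [Matrix.det_fin_three]
  simp only [Matrix.of_apply, e1, e2, e3]
  rw [Matrix.det_succ_row_zero]
  simp only [Fin.sum_univ_four, Matrix.det_fin_three, Matrix.submatrix_apply]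
  have f1 : ∀ i : Fin 3, (0 : Fin 4).succAbove i = i.succ := fun i => rfl
  have g10 : (1 : Fin 4).succAbove 0 = 0 := rfl
  have g11 : (1 : Fin 4).succAbove 1 = 2 := rfl
  have g12 : (1 : Fin 4).succAbove 2 = 3 := rfl
  have g20 : (2 : Fin 4).succAbove 0 = 0 := rfl
  have g21 : (2 : Fin 4).succAbove 1 = 1 := rfl
  have g22 : (2 : Fin 4).succAbove 2 = 3 := rfl
  have g30 : (3 : Fin 4).succAbove 0 = 0 := rfl
  have g31 : (3 : Fin 4).succAbove 1 = 1 := rfl
  have g32 : (3 : Fin 4).succAbove 2 = 2 := rfl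
  simp only [f1, g10, g11, g12, g20, g21, g22, g30, g31, g32, e1, e2, e3]
  have v0 : ((0 : Fin 4) : ℕ) = 0 := rfl
  have v1 : ((1 : Fin 4) : ℕ) = 1 := rfl
  have v2 : ((2 : Fin 4) : ℕ) = 2 := rfl
  have v3 : ((3 : Fin 4) : ℕ) = 3 := rfl
  rw [v0, v1, v2, v3]
  generalize T 0 0 = a00 at *
  generalize T 0 1 = a01 at *
  generalize T 0 2 = a02 at *
  generalize T 0 3 = a03 at *
  generalize T 1 0 = a10 at *
  generalize T 1 1 = a11 at *
  generalize T 1 2 = a12 at *
  generalize T 1 3 = a13 at *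
  generalize T 2 0 = a20 at *
  generalize T 2 1 = a21 at *
  generalize T 2 2 = a22 at *
  generalize T 2 3 = a23 at *
  generalize T 3 0 = a30 at *
  generalize T 3 1 = a31 at *
  generalize T 3 2 = a32 at *
  generalize T 3 3 = a33 at *
  -- eliminate the first column
  obtain rfl : a00 = y 0 - (a01 * x 0 + a02 * x 1 + a03 * x 2) := by rw [h0]; ring
  obtain rfl : a10 = y 1 - (a11 * x 0 + a12 * x 1 + a13 * x 2) := by rw [h1]; ring
  obtain rfl : a20 = y 2 - (a21 * x 0 + a22 * x 1 + a23 * x 2) := by rw [h2]; ring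
  obtain rfl : a30 = y 3 - (a31 * x 0 + a32 * x 1 + a33 * x 2) := by rw [h3]; ring
  ring

/-- The matrix of the action. -/
def SS (p q s t : R) : Matrix (Fin 4) (Fin 4) R := Matrix.of fun n l => GG p q s t (Pi.single l 1) n

theorem GG_lin (p q s t : R) (c : Fin 4 → R) (n : Fin 4) :
    GG p q s t c n = ∑ l, SS p q s t n l * c l := by
  rw [Fin.sum_univ_four]
  fin_cases n <;> simp [GG, SS, cub, tt, Pi.single_apply] <;> ring

theorem det_SS (p q s t : R) : (SS p q s t).det = (p * t - q * s) ^ 6 := by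
  rw [Matrix.det_succ_row_zero]
  simp only [Fin.sum_univ_four, Matrix.det_fin_three, Matrix.submatrix_apply]
  have f1 : ∀ i : Fin 3, (0 : Fin 4).succAbove i = i.succ := fun i => rfl
  have g10 : (1 : Fin 4).succAbove 0 = 0 := rfl
  have g11 : (1 : Fin 4).succAbove 1 = 2 := rfl
  have g12 : (1 : Fin 4).succAbove 2 = 3 := rfl
  have g20 : (2 : Fin 4).succAbove 0 = 0 := rfl
  have g21 : (2 : Fin 4).succAbove 1 = 1 := rfl
  have g22 : (2 : Fin 4).succAbove 2 = 3 := rfl
  have g30 : (3 : Fin 4).succAbove 0 = 0 := rfl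
  have g31 : (3 : Fin 4).succAbove 1 = 1 := rfl
  have g32 : (3 : Fin 4).succAbove 2 = 2 := rfl
  have e1 : (Fin.succ 0 : Fin 4) = 1 := rfl
  have e2 : (Fin.succ 1 : Fin 4) = 2 := rfl
  have e3 : (Fin.succ 2 : Fin 4) = 3 := rfl
  simp only [f1, g10, g11, g12, g20, g21, g22, g30, g31, g32, e1, e2, e3]
  have v0 : ((0 : Fin 4) : ℕ) = 0 := rfl
  have v1 : ((1 : Fin 4) : ℕ) = 1 := rfl
  have v2 : ((2 : Fin 4) : ℕ) = 2 := rfl
  have v3 : ((3 : Fin 4) : ℕ) = 3 := rfl
  rw [v0, v1, v2, v3]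
  simp [SS, GG, cub, tt, Pi.single_apply]
  ring

end

theorem done : S_FJC := by
  intro R _ p q s t m m' x
  set σ : Equiv.Perm (Fin 4) := m.cycleRange.symm with hσ
  set σ' : Equiv.Perm (Fin 4) := m'.cycleRange.symm with hσ'
  have h0 : σ 0 = m := Fin.cycleRange_symm_zero m
  have h1 : ∀ l : Fin 3, σ l.succ = m.succAbove l := fun l => Fin.cycleRange_symm_succ m l
  have h0' : σ' 0 = m' := Fin.cycleRange_symm_zero m'
  have h1' : ∀ l : Fin 3, σ' l.succ = m'.succAbove l := fun l => Fin.cycleRange_symm_succ m' l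
  set T : Matrix (Fin 4) (Fin 4) R := (SS p q s t).submatrix σ' σ with hT
  have hk := key T x (fun n => GG p q s t (cm m x) (σ' n)) (by
    intro n
    show GG p q s t (cm m x) (σ' n) = _
    rw [GG_lin, Fin.sum_univ_succAbove _ m]
    have e : ∀ l : Fin 3, cm m x (m.succAbove l) = x l := fun l => by
      unfold cm
      rw [Fin.insertNth_apply_succAbove]
    have e' : cm m x m = 1 := by
      unfold cm
      rw [Fin.insertNth_apply_same]
    simp only [e, e', mul_one, hT, Matrix.submatrix_apply, h0, h1])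
  have hdet : T.det = ((Equiv.Perm.sign σ' * Equiv.Perm.sign σ : ℤˣ) : ℤ) *
      (p * t - q * s) ^ 6 := by
    have e : T = ((SS p q s t).submatrix σ' id).submatrix id σ := rfl
    rw [e, Matrix.det_permute', Matrix.det_permute, det_SS]
    push_cast
    ring
  refine ⟨((Equiv.Perm.sign σ' * Equiv.Perm.sign σ : ℤˣ) : ℤ), ?_, ?_⟩
  · rcases Int.units_eq_one_or (Equiv.Perm.sign σ' * Equiv.Perm.sign σ) with h | h
    · left
      rw [h]
      rfl
    · right
      rw [h]
      rfl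
  · rw [← hdet, ← h0']
    rw [← hk]
    congr 1
    ext n l
    simp only [Matrix.of_apply, hT, Matrix.submatrix_apply, h1, h1', SS]
    rw [h0']

end Pool.Agent.Y166.LT.FJC
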