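import Pool.Agent.Y166.LT.All
import Pool.Agent.Y166.LT.DefsG
import Pool.Agent.Y166.LT.FANO
import Pool.Agent.Y166.LT.FJC
import Pool.Agent.Y211.LT.FCH
import Pool.Agent.Y361.LT.FJA

/-! The anticanonical bundle of `X`. -/

set_option autoImplicit false

namespace Pool.Agent.Y166.LT

theorem tFANO : S_FANO := Pool.Agent.Y166.LT.FANO.done Pool.Agent.Y211.LT.FCH.done
  Pool.Agent.Y361.LT.FJA.done Pool.Agent.Y166.LT.FJC.done

end Pool.Agent.Y166.LT
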