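import Pool.Agent.Y166.LT.MODEL

/-! Dominance. -/

set_option autoImplicit false
set_option linter.unusedSectionVars false
set_option linter.deprecated false

namespace Pool.Agent.Y166.LT.DOM

open MvPolynomial Pool.Agent.Y166.LT
open Pool.Agent.Y166.GM (PP Rep coneIdeal zero_iff rep_rep exists_rep exists_homog exists_basic
  isOpen_basic IsMorphism IsProjVar aeval_smul_homog eval_smul_homog mem_coneIdeal_homog
  coneIdeal_prime aeval_aeval eval_aeval mem_closure_iff')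
open Pool.Agent.Y198.MC (BirOver YY XX cov Co Ch)
open Pool.Agent.Y794.MC.Lift2 (sF sF_homog aeval_sF cov_rep)
open Pool.Agent.Y166.LT.MODEL (prod_vanish)

theorem done (hX : Pool.Agent.Y198.MC.StmVarX) (hY : Pool.Agent.Y198.MC.StmVarY)
    (hCov : Pool.Agent.Y198.MC.StmCov) : S_DOM := by
  intro k _ _ _ r m hr Z f hZ hf hfX hb
  have : Infinite k := IsAlgClosed.instInfinite
  have hXX := (hX k (r + 2) (by omega)).1
  have hYY := (hY k (r + 2) (by omega)).1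
  intro p hp
  rw [mem_closure_iff']
  intro l P hP hPZ
  rcases hb with ⟨U, V, g, hU, hV, ⟨z₀, hz₀U, hz₀Z⟩, hfm, hgm, hgM, hgf, hfg⟩ |
    ⟨U, U', g, g', hU, hU', ⟨z₀, hz₀U, hz₀Z⟩, hgm, hgm', hgM, hg'M, hgg', hg'g, hcomp⟩
  · have h1 := hfm ⟨hz₀U, hz₀Z⟩
    obtain ⟨mG, G, hG, hG₀, hGV⟩ := exists_basic hV h1.1
    refine prod_vanish hXX.2 hP hG ?_ ⟨f z₀, h1.2, hG₀⟩ p hp
    intro q hq hne
    have h2 := hGV q hne
    refine hPZ q ⟨g q, (hgm ⟨h2, hq⟩).2, hfg q ⟨h2, hq⟩⟩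
  · have h1 := hgm ⟨hz₀U, hz₀Z⟩
    obtain ⟨mG, G, hG, hG₀, hGV⟩ := exists_basic hU' h1.1
    obtain ⟨y, hy, rfl⟩ := (((hCov k (r + 2) (by omega)).2.2.2.1) p hp).1
    have h2 : ∀ q ∈ YY k (r + 2), eval q.rep (aeval (sF k (r + 2)) P :
        MvPolynomial (Co (r + 2)) k) = 0 := by
      refine prod_vanish hYY.2 (hP.aeval _ (sF_homog (r + 2))) hG ?_ ⟨g z₀, h1.2, hG₀⟩
      intro q hq hne
      have h3 := hGV q hne
      have h4 := hgm' ⟨h3, hq⟩
      have h5 : f (g' q) = cov k (r + 2) q := by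
        rw [← hcomp _ h4, hg'g q ⟨h3, hq⟩]
      have h6 := hPZ (cov k (r + 2) q) ⟨g' q, h4.2, h5⟩
      rw [eval_aeval]
      exact (zero_iff (cov_rep (by omega) hCov q hq) hP).2 h6
    have h3 := h2 y hy
    rw [eval_aeval] at h3
    exact (zero_iff (cov_rep (by omega) hCov y hy) hP).1 h3

end Pool.Agent.Y166.LT.DOM
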