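import Pool.Agent.Y166.LT.MODEL

/-! Invariance under linear changes of the coordinates. -/

set_option autoImplicit false
set_option linter.unusedSectionVars false
set_option linter.deprecated false

namespace Pool.Agent.Y166.LT.INV

open MvPolynomial Pool.Agent.Y166.LT Pool.Agent.Y198.MC
open FF (Place)

section
variable {k K : Type} [Field k] [Field K] [Algebra k K] {N : ℕ}

/-- The matrix of the action. -/
def mk (g : Matrix (Fin N) (Fin N) k) : Matrix (Co N) (Co N) k :=
  Matrix.kroneckerMap (· * ·) (Matrix.kroneckerMap (· * ·) g g)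
    (Matrix.kroneckerMap (· * ·) g (Matrix.kroneckerMap (· * ·) g g))

theorem mk_mul (g h : Matrix (Fin N) (Fin N) k) : mk (g * h) = mk g * mk h := by
  unfold mk
  rw [Matrix.mul_kronecker_mul, Matrix.mul_kronecker_mul, Matrix.mul_kronecker_mul]

theorem mk_one : mk (1 : Matrix (Fin N) (Fin N) k) = 1 := by
  unfold mk
  rw [Matrix.one_kronecker_one, Matrix.one_kronecker_one, Matrix.one_kronecker_one]

theorem actX_eq (g : Matrix (Fin N) (Fin N) k) (x : Co N → K) (t : Co N) :
    actX g x t = ∑ s, algebraMap k K (mk g t s) * x s := by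
  unfold actX
  refine Finset.sum_congr rfl fun s _ => ?_
  congr 2
  simp only [mk, Matrix.kroneckerMap_apply]
  ring

theorem actX_actX (g h : Matrix (Fin N) (Fin N) k) (x : Co N → K) :
    actX g (actX h x) = actX (g * h) x := by
  funext t
  simp only [actX_eq]
  simp only [Finset.mul_sum]
  rw [Finset.sum_comm]
  refine Finset.sum_congr rfl fun s _ => ?_
  rw [mk_mul, Matrix.mul_apply, map_sum, Finset.sum_mul]
  refine Finset.sum_congr rfl fun s' _ => ?_
  rw [map_mul, mul_assoc]

theorem actX_one (x : Co N → K) : actX (1 : Matrix (Fin N) (Fin N) k) x = x := by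
  funext t
  rw [actX_eq, mk_one]
  rw [Finset.sum_eq_single t]
  · rw [Matrix.one_apply_eq, map_one, one_mul]
  · intro b _ hb
    rw [Matrix.one_apply_ne hb.symm, map_zero, zero_mul]
  · intro h
    exact absurd (Finset.mem_univ t) h

theorem actX_inv (g : Matrix (Fin N) (Fin N) k) (hg : g.det ≠ 0) (x : Co N → K) :
    actX g⁻¹ (actX g x) = x := by
  rw [actX_actX, Matrix.nonsing_inv_mul _ (isUnit_iff_ne_zero.2 hg), actX_one]

/-- The linear forms of the action. -/
noncomputable def lam (g : Matrix (Fin N) (Fin N) k) (t : Co N) : MvPolynomial (Co N) k :=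
  ∑ s, C (mk g t s) * X s

theorem lam_homog (g : Matrix (Fin N) (Fin N) k) (t : Co N) : (lam g t).IsHomogeneous 1 := by
  refine IsHomogeneous.sum _ _ _ fun s _ => ?_
  have h := (isHomogeneous_C (Co N) (mk g t s)).mul (isHomogeneous_X k s)
  rwa [zero_add] at h

theorem aeval_lam (g : Matrix (Fin N) (Fin N) k) (x : Co N → K) (t : Co N) :
    aeval x (lam g t) = actX g x t := by
  rw [actX_eq, lam, map_sum]
  refine Finset.sum_congr rfl fun s _ => ?_
  rw [map_mul, aeval_C, aeval_X]

theorem aeval_comp (g : Matrix (Fin N) (Fin N) k) (x : Co N → K) (P : MvPolynomial (Co N) k) :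
    aeval x (aeval (lam g) P) = aeval (actX g x) P := by
  rw [Pool.Agent.Y166.GM.aeval_aeval]
  have e : (fun j => aeval x (lam g j)) = actX g x := funext (aeval_lam g x)
  rw [e]

theorem rat_le (g : Matrix (Fin N) (Fin N) k) (x : Co N → K) :
    ratX k (actX g x) ≤ ratX k x := by
  unfold ratX
  rw [IntermediateField.adjoin_le_iff]
  rintro _ ⟨⟨a, b⟩, rfl⟩
  show actX g x a / actX g x b ∈ ratX k x
  by_cases h : ∃ s, x s ≠ 0
  · obtain ⟨s, hs⟩ := h
    rw [← aeval_lam, ← aeval_lam]
    exact MODEL.ratio_mem x s hs (lam_homog g a) (lam_homog g b)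
  · push Not at h
    have h1 : actX g x a = 0 := by
      rw [actX_eq]
      refine Finset.sum_eq_zero fun s _ => ?_
      rw [h s, mul_zero]
    rw [h1, zero_div]
    exact zero_mem _

theorem reg_of (g : Matrix (Fin N) (Fin N) k) (hg : g.det ≠ 0) (x : Co N → K) (v : Place k K)
    (φ : K) (h : RegAtCentre (actX g x) v φ) : RegAtCentre x v φ := by
  obtain ⟨m, A, B, hA, hB, hB0, hφ, hreg⟩ := h
  refine ⟨m, aeval (lam g) A, aeval (lam g) B, ?_, ?_, ?_, ?_, ?_⟩
  · have := hA.aeval _ (lam_homog g)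
    rwa [one_mul] at this
  · have := hB.aeval _ (lam_homog g)
    rwa [one_mul] at this
  · rwa [aeval_comp]
  · rw [aeval_comp, aeval_comp, hφ]
  · intro C hC
    have h1 := hreg (aeval (lam g⁻¹) C) (by
      have := hC.aeval _ (lam_homog g⁻¹)
      rwa [one_mul] at this)
    rw [aeval_comp, actX_inv g hg] at h1
    rwa [aeval_comp]

theorem unram_of (n : ℕ) (g : Matrix (Fin N) (Fin N) k) (hg : g.det ≠ 0) (x : Co N → K)
    (v : Place k K) (h : Unram n (actX g x) v) : Unram n x v := by
  obtain ⟨⟨φ, hφ, h1⟩, y, hy, h2⟩ := h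
  exact ⟨⟨φ, rat_le g x hφ, h1⟩, y, fun i => reg_of g hg x v _ (hy i), h2⟩

end

theorem done : S_INV := by
  intro k K _ _ _ N n x g hg
  have hg' : g⁻¹.det ≠ 0 := by
    rw [Matrix.det_nonsing_inv, Ring.inverse_eq_inv']
    exact inv_ne_zero hg
  refine ⟨le_antisymm (rat_le g x) ?_, fun v => ⟨unram_of n g hg x v, ?_⟩⟩
  · have h := rat_le g⁻¹ (actX g x)
    rwa [actX_inv g hg] at h
  · intro h
    apply unram_of n g⁻¹ hg' (actX g x) v
    rwa [actX_inv g hg]

end Pool.Agent.Y166.LT.INV
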