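import Pool.Agent.Y166.LT.Stm
import Pool.Agent.Y794.MC.Lift2A
import Pool.Agent.Y166.GM.FinalA

/-! The function field of a variety birational to the covering. -/

set_option autoImplicit false
set_option linter.unusedSectionVars false
set_option linter.deprecated false

namespace Pool.Agent.Y166.LT.MODEL

open MvPolynomial Pool.Agent.Y166.LT
open Pool.Agent.Y166.GM (PP Rep coneIdeal zero_iff rep_rep exists_rep exists_homog exists_basic
  isOpen_basic IsMorphism IsProjVar aeval_smul_homog eval_smul_homog mem_coneIdeal_homog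
  coneIdeal_prime aeval_aeval eval_aeval)
open Pool.Agent.Y198.MC (BirOver YY XX cov Co Ch j0 rrY vvY ptX ptY U0 V0 mulc symm)
open Pool.Agent.Y794.MC.Lift2 (aeval_vvY symm_ptY symm_smul sF sF_homog aeval_sF cov_rep)

section
variable {k : Type} [Field k]

theorem aeval_mem {W ι : Type} [Field W] [Algebra k W] (w : ι → W) (Q : MvPolynomial ι k) :
    aeval w Q ∈ IntermediateField.adjoin k (Set.range w) := by
  apply IntermediateField.algebra_adjoin_le_adjoin
  rw [Algebra.adjoin_range_eq_range_aeval]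
  exact ⟨Q, rfl⟩

theorem ratio_mem {W ι : Type} [Field W] [Algebra k W] (z : ι → W) (i₀ : ι) (h0 : z i₀ ≠ 0)
    {l : ℕ} {P Q : MvPolynomial ι k} (hP : P.IsHomogeneous l) (hQ : Q.IsHomogeneous l) :
    aeval z P / aeval z Q ∈ ratX k z := by
  have h1 : ∀ R : MvPolynomial ι k, R.IsHomogeneous l →
      aeval z R = z i₀ ^ l * aeval (fun i => z i / z i₀) R := by
    intro R hR
    rw [← aeval_smul_homog hR]
    congr 2
    funext i
    rw [mul_div_cancel₀ _ h0]
  have h2 : IntermediateField.adjoin k (Set.range fun i => z i / z i₀) ≤ ratX k z := by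
    unfold ratX
    rw [IntermediateField.adjoin_le_iff]
    rintro _ ⟨i, rfl⟩
    exact IntermediateField.subset_adjoin _ _ ⟨(i, i₀), rfl⟩
  rw [h1 P hP, h1 Q hQ, mul_div_mul_left _ _ (pow_ne_zero _ h0)]
  exact h2 (div_mem (aeval_mem _ _) (aeval_mem _ _))

/-- A product of forms which vanishes on an irreducible set. -/
theorem prod_vanish [Infinite k] {σ : Type} {Y : Set (PP k σ)} (hY : IsIrreducible Y)
    {P Q : MvPolynomial σ k} {m n : ℕ} (hP : P.IsHomogeneous m) (hQ : Q.IsHomogeneous n)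
    (h : ∀ z ∈ Y, eval z.rep Q ≠ 0 → eval z.rep P = 0) (hQ0 : ∃ z ∈ Y, eval z.rep Q ≠ 0) :
    ∀ z ∈ Y, eval z.rep P = 0 := by
  have h1 : P * Q ∈ coneIdeal Y := by
    rw [mem_coneIdeal_homog (hP.mul hQ)]
    intro z hz
    rw [map_mul]
    by_cases hq : eval z.rep Q = 0
    · rw [hq, mul_zero]
    · rw [h z hz hq, zero_mul]
  rcases (coneIdeal_prime hY).mem_or_mem h1 with h2 | h2
  · exact (mem_coneIdeal_homog hP).1 h2
  · obtain ⟨z, hz, hz0⟩ := hQ0
    exact absurd ((mem_coneIdeal_homog hQ).1 h2 z hz) hz0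

end

theorem done (hCh : Pool.Agent.Y198.MC.StmChart) (hCov : Pool.Agent.Y198.MC.StmCov)
    (hVar : Pool.Agent.Y198.MC.StmVarY) : S_MODEL := by
  intro k K _ _ _ _ _ r m hr Z f hZ hf hb y x hm
  classical
  have : Infinite k := IsAlgClosed.instInfinite
  obtain ⟨U, U', g, g', hU, hU', ⟨z₀, hz₀U, hz₀Z⟩, hgm, hgm', hgM, hg'M, hgg', hg'g, hcomp⟩ := hb
  -- forms representing `g` near `z₀`
  obtain ⟨V₁, hV₁, hz₀V, m₁, B, hB, hgB⟩ := hgM z₀ ⟨hz₀U, hz₀Z⟩
  obtain ⟨mG, G, hG, hG₀, hGV⟩ := exists_basic (hV₁.inter hU) ⟨hz₀V, hz₀U⟩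
  have hp₀ := hgm ⟨hz₀U, hz₀Z⟩
  obtain ⟨V₂, hV₂, hp₀V, m₂, A, hA, hgA⟩ := hg'M (g z₀) hp₀
  obtain ⟨mG', G', hG', hG'₀, hGV'⟩ := exists_basic (hV₂.inter hU') ⟨hp₀V, hp₀.1⟩
  have hYY := (hVar k (r + 2) (by omega)).1
  -- the two facts
  have Fa : ∀ z ∈ Z, eval z.rep G ≠ 0 → Rep (g z) (fun j => eval z.rep (B j)) ∧
      g z ∈ YY k (r + 2) ∧ g z ∈ U' ∧ g' (g z) = z ∧ f z = cov k (r + 2) (g z) := by
    intro z hz hne
    have h1 := hGV z hne
    have h2 := hgm ⟨h1.2, hz⟩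
    exact ⟨hgB z ⟨h1.1, h1.2, hz⟩, h2.2, h2.1, hgg' z ⟨h1.2, hz⟩, (hcomp z ⟨h1.2, hz⟩).symm⟩
  have Fb : ∀ p ∈ YY k (r + 2), eval p.rep G' ≠ 0 → Rep (g' p) (fun j => eval p.rep (A j)) ∧
      g' p ∈ Z ∧ g' p ∈ U ∧ g (g' p) = p := by
    intro p hp hne
    have h1 := hGV' p hne
    have h2 := hgm' ⟨h1.2, hp⟩
    exact ⟨hgA p ⟨h1.1, h1.2, hp⟩, h2.2, h2.1, hg'g p ⟨h1.2, hp⟩⟩
  obtain ⟨hBz₀, hp₀Y, -, hgz₀, -⟩ := Fa z₀ hz₀Z hG₀
  obtain ⟨hAp₀, -, -, -⟩ := Fb (g z₀) hp₀Y hG'₀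
  rw [hgz₀] at hAp₀
  -- generic points
  have hgen := hm.gen
  have hnv : ∀ (l : ℕ) (Q : MvPolynomial (Fin (m + 1)) k), Q.IsHomogeneous l →
      ∀ z ∈ Z, eval z.rep Q ≠ 0 → aeval y Q ≠ 0 := by
    intro l Q hQ z hz hne h0
    exact hne ((hgen l Q hQ).1 h0 z hz)
  have hyG : aeval y G ≠ 0 := hnv _ G hG z₀ hz₀Z hG₀
  set w : Co (r + 2) → K := fun j => aeval y (B j) with hw
  have hwQ : ∀ Q : MvPolynomial (Co (r + 2)) k, aeval w Q = aeval y (aeval B Q) := by
    intro Q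
    rw [aeval_aeval]
  -- (1)
  have K1 : ∀ (l : ℕ) (Q : MvPolynomial (Co (r + 2)) k), Q.IsHomogeneous l →
      (aeval w Q = 0 ↔ ∀ p ∈ YY k (r + 2), eval p.rep Q = 0) := by
    intro l Q hQ
    have hQB : (aeval B Q : MvPolynomial (Fin (m + 1)) k).IsHomogeneous (m₁ * l) := hQ.aeval B hB
    rw [hwQ]
    constructor
    · intro h0
      have h1 := (hgen _ _ hQB).1 h0
      refine prod_vanish hYY.2 hQ (hG'.mul (hG.aeval A hA)) ?_ ?_
      · intro p hp hne
        rw [map_mul, eval_aeval] at hne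
        obtain ⟨h2, h3, h4, h5⟩ := Fb p hp (left_ne_zero_of_mul hne)
        have h6 : eval (g' p).rep G ≠ 0 := by
          intro h
          exact right_ne_zero_of_mul hne ((zero_iff h2 hG).2 h)
        obtain ⟨h7, -⟩ := Fa (g' p) h3 h6
        rw [h5] at h7
        have h8 := h1 (g' p) h3
        rw [eval_aeval] at h8
        exact (zero_iff h7 hQ).1 h8
      · refine ⟨g z₀, hp₀Y, ?_⟩
        rw [map_mul, eval_aeval]
        refine mul_ne_zero hG'₀ ?_
        intro h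
        exact hG₀ ((zero_iff hAp₀ hG).1 h)
    · intro h0
      rw [hgen _ _ hQB]
      refine prod_vanish hZ.2 hQB hG ?_ ⟨z₀, hz₀Z, hG₀⟩
      intro z hz hne
      obtain ⟨h1, h2, -⟩ := Fa z hz hne
      rw [eval_aeval]
      exact (zero_iff h1 hQ).2 (h0 _ h2)
  have K1n : ∀ (l : ℕ) (Q : MvPolynomial (Co (r + 2)) k), Q.IsHomogeneous l →
      ∀ p ∈ YY k (r + 2), ∀ v, Rep p v → eval v Q ≠ 0 → aeval w Q ≠ 0 := by
    intro l Q hQ p hp v hv hne h0
    exact hne ((zero_iff hv hQ).2 ((K1 l Q hQ).1 h0 p hp))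
  -- (2)
  have K2 : ∀ a b, y a * aeval w (A b) = y b * aeval w (A a) := by
    intro a b
    have h1 : (X a * aeval B (A b) - X b * aeval B (A a) :
        MvPolynomial (Fin (m + 1)) k).IsHomogeneous (1 + m₁ * m₂) :=
      ((isHomogeneous_X k a).mul ((hA b).aeval B hB)).sub
        ((isHomogeneous_X k b).mul ((hA a).aeval B hB))
    have h2 : ∀ z ∈ Z, eval z.rep (X a * aeval B (A b) - X b * aeval B (A a) :
        MvPolynomial (Fin (m + 1)) k) = 0 := by
      refine prod_vanish hZ.2 h1 (hG.mul (hG'.aeval B hB)) ?_ ?_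
      · intro z hz hne
        rw [map_mul, eval_aeval] at hne
        obtain ⟨h3, h4, -, h5, -⟩ := Fa z hz (left_ne_zero_of_mul hne)
        have h6 : eval (g z).rep G' ≠ 0 := by
          intro h
          exact right_ne_zero_of_mul hne ((zero_iff h3 hG').2 h)
        obtain ⟨h7, -⟩ := Fb (g z) h4 h6
        rw [h5] at h7
        have h8 := (h3.eval_iff hA).1 h7
        obtain ⟨c, hc, h9⟩ := (rep_rep z).exists_smul h8
        have h10 : ∀ b, eval (fun j => eval z.rep (B j)) (A b) = c * z.rep b := fun b =>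
          congrFun h9 b
        rw [map_sub, map_mul, map_mul, eval_X, eval_X, eval_aeval, eval_aeval, h10, h10]
        ring
      · refine ⟨z₀, hz₀Z, ?_⟩
        rw [map_mul, eval_aeval]
        refine mul_ne_zero hG₀ ?_
        intro h
        exact hG'₀ ((zero_iff hBz₀ hG').1 h)
    have h3 := (hgen _ _ h1).2 h2
    rw [map_sub, map_mul, map_mul, aeval_X, aeval_X, ← hwQ, ← hwQ, sub_eq_zero] at h3
    exact h3
  obtain ⟨b₀, hb₀⟩ : ∃ b, eval (g z₀).rep (A b) ≠ 0 := by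
    by_contra hcon
    push Not at hcon
    exact hAp₀.ne_zero (funext hcon)
  have hwA : aeval w (A b₀) ≠ 0 := K1n _ _ (hA b₀) _ hp₀Y _ (rep_rep _) hb₀
  have hy₀ : y b₀ ≠ 0 := by
    intro h0
    obtain ⟨j, hj⟩ : ∃ j, z₀.rep j ≠ 0 := by
      by_contra hcon
      push Not at hcon
      exact (rep_rep z₀).ne_zero (funext hcon)
    have h1 : aeval y (X j : MvPolynomial (Fin (m + 1)) k) ≠ 0 :=
      hnv 1 _ (isHomogeneous_X k j) z₀ hz₀Z (by rwa [eval_X])
    rw [aeval_X] at h1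
    have h2 := K2 j b₀
    rw [h0, zero_mul] at h2
    rcases mul_eq_zero.1 h2 with h3 | h3
    · exact h1 h3
    · exact hwA h3
  -- the coordinate `j0`
  have hchart := (hCh k r hr).2
  have hwj : w (j0 r) ≠ 0 := by
    obtain ⟨z, hz, hzr⟩ := hchart.mem 0
    have h1 := K1n 1 (X (j0 r)) (isHomogeneous_X k _) z hz _ hzr (by
      rw [eval_X, hchart.one, map_one]
      exact one_ne_zero)
    rwa [aeval_X] at h1
  have hrat : ratX k w = ⊤ := by
    rw [eq_top_iff, ← hm.top]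
    have h1 : ∀ a, y a / y b₀ ∈ ratX k w := by
      intro a
      have h2 : y a / y b₀ = aeval w (A a) / aeval w (A b₀) := by
        rw [div_eq_div_iff hy₀ hwA, K2 a b₀, mul_comm]
      rw [h2]
      exact ratio_mem w (j0 r) hwj (hA a) (hA b₀)
    unfold ratX
    rw [IntermediateField.adjoin_le_iff]
    rintro _ ⟨⟨a, b⟩, rfl⟩
    show y a / y b ∈ ratX k w
    have h2 : y a / y b = (y a / y b₀) / (y b / y b₀) := by
      rw [div_div_div_cancel_right₀ hy₀]
    rw [h2]
    exact div_mem (h1 a) (h1 b)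
  -- (3)
  obtain ⟨mF, F, l, P, hF, hP, hPy, hrep, hx⟩ := hm.img
  have K3 : ∀ a b, x a * symm w b = x b * symm w a := by
    intro a b
    have h1 : (F a * aeval B (sF k (r + 2) b) - F b * aeval B (sF k (r + 2) a) :
        MvPolynomial (Fin (m + 1)) k).IsHomogeneous (mF + m₁ * 1) :=
      ((hF a).mul ((sF_homog (r + 2) b).aeval B hB)).sub
        ((hF b).mul ((sF_homog (r + 2) a).aeval B hB))
    have hP' : ∃ z ∈ Z, eval z.rep (P * G) ≠ 0 := by
      by_contra hcon
      push Not at hcon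
      have h2 := (hgen _ _ (hP.mul hG)).2 hcon
      rw [map_mul] at h2
      rcases mul_eq_zero.1 h2 with h3 | h3
      · exact hPy h3
      · exact hyG h3
    have h2 : ∀ z ∈ Z, eval z.rep (F a * aeval B (sF k (r + 2) b) -
        F b * aeval B (sF k (r + 2) a) : MvPolynomial (Fin (m + 1)) k) = 0 := by
      refine prod_vanish hZ.2 h1 (hP.mul hG) ?_ hP'
      intro z hz hne
      rw [map_mul] at hne
      obtain ⟨h3, h4, -, -, h5⟩ := Fa z hz (right_ne_zero_of_mul hne)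
      have h6 := hrep z hz (left_ne_zero_of_mul hne)
      have h7 := cov_rep (by omega) hCov (g z) h4
      have h8 := (h3.eval_iff (sF_homog (r + 2))).1 h7
      rw [← h5] at h8
      obtain ⟨c, hc, h9⟩ := h6.exists_smul h8
      have h10 : ∀ b, eval (fun j => eval z.rep (B j)) (sF k (r + 2) b) = c * eval z.rep (F b) :=
        fun b => congrFun h9 b
      rw [map_sub, map_mul, map_mul, eval_aeval, eval_aeval, h10, h10]
      ring
    have h3 := (hgen _ _ h1).2 h2
    rw [map_sub, map_mul, map_mul, ← hwQ, ← hwQ, aeval_sF, aeval_sF, sub_eq_zero] at h3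
    rw [hx]
    exact h3
  obtain ⟨a₀, ha₀⟩ : ∃ a, x a ≠ 0 := by
    obtain ⟨z, hz, hz0⟩ : ∃ z ∈ Z, eval z.rep P ≠ 0 := by
      by_contra hcon
      push Not at hcon
      exact hPy ((hgen _ _ hP).2 hcon)
    have h1 := hrep z hz hz0
    obtain ⟨a, ha⟩ : ∃ a, eval z.rep (F a) ≠ 0 := by
      by_contra hcon
      push Not at hcon
      exact h1.ne_zero (funext hcon)
    refine ⟨a, ?_⟩
    rw [hx]
    exact hnv _ _ (hF a) z hz ha
  obtain ⟨b₁, hb₁⟩ : ∃ b, symm w b ≠ 0 := by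
    have h1 := cov_rep (by omega) hCov (g z₀) hp₀Y
    obtain ⟨b, hb⟩ : ∃ b, eval (g z₀).rep (sF k (r + 2) b) ≠ 0 := by
      by_contra hcon
      push Not at hcon
      exact h1.ne_zero (funext hcon)
    refine ⟨b, ?_⟩
    rw [← aeval_sF (k := k)]
    exact K1n _ _ (sF_homog _ b) _ hp₀Y _ (rep_rep _) hb
  have hsa : symm w a₀ ≠ 0 := by
    intro h0
    have h1 := K3 a₀ b₁
    rw [h0, mul_zero] at h1
    rcases mul_eq_zero.1 h1 with h2 | h2
    · exact ha₀ h2
    · exact hb₁ h2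
  have hxs : x = fun j => x a₀ / symm w a₀ * symm w j := by
    funext j
    rw [div_mul_eq_mul_div, eq_div_iff hsa, K3 a₀ j]
  -- (4)
  set Yc : Ch r → K := fun i => w (rrY r i) / w (j0 r) with hYc
  have K4 : ∀ j, w j = w (j0 r) * aeval Yc (vvY k r j) := by
    intro j
    obtain ⟨Ah, hAh, hAe⟩ := exists_homog (vvY k r j) (le_refl (vvY k r j).totalDegree) (j0 r)
      (rrY r)
    set D := (vvY k r j).totalDegree
    have h1 : (X j * X (j0 r) ^ D - X (j0 r) * Ah : MvPolynomial (Co (r + 2)) k).IsHomogeneous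
        (1 + D) := ((isHomogeneous_X k j).mul (isHomogeneous_X_pow (j0 r) D)).sub
      ((isHomogeneous_X k (j0 r)).mul hAh)
    have h2 : ∀ p ∈ YY k (r + 2), eval p.rep (X j * X (j0 r) ^ D - X (j0 r) * Ah :
        MvPolynomial (Co (r + 2)) k) = 0 := by
      refine prod_vanish hYY.2 h1 (isHomogeneous_X k (j0 r)) ?_ ?_
      · intro p hp hne
        rw [eval_X] at hne
        have h3 := hchart.eq p hp p.rep (rep_rep p) hne j
        have h4 := hAe k p.rep hne
        rw [aeval_eq_eval, aeval_eq_eval] at h4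
        rw [map_sub, map_mul, map_mul, map_pow, eval_X, eval_X, h4, h3]
        ring
      · obtain ⟨z, hz, hzr⟩ := hchart.mem 0
        refine ⟨z, hz, ?_⟩
        intro h
        have h3 := (zero_iff hzr (isHomogeneous_X k (j0 r))).2 h
        rw [eval_X, hchart.one, map_one] at h3
        exact one_ne_zero h3
    have h3 := (K1 _ _ h1).2 h2
    rw [map_sub, map_mul, map_mul, map_pow, aeval_X, aeval_X, hAe K w hwj, sub_eq_zero] at h3
    have h4 : w (j0 r) ^ D ≠ 0 := pow_ne_zero _ hwj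
    apply mul_right_cancel₀ h4
    rw [h3]
    ring
  have hind : AlgebraicIndependent k Yc := by
    rw [algebraicIndependent_iff]
    intro Q hQ
    obtain ⟨Qh, hQh, hQe⟩ := exists_homog Q (le_refl Q.totalDegree) (j0 r) (rrY r)
    have h1 : aeval w Qh = 0 := by
      rw [hQe K w hwj, show (fun i => w (rrY r i) / w (j0 r)) = Yc from rfl, hQ, mul_zero]
    have h2 := (K1 _ _ hQh).1 h1
    apply MvPolynomial.funext
    intro c
    rw [map_zero]
    obtain ⟨z, hz, hzr⟩ := hchart.mem c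
    have h3 := (zero_iff hzr hQh).2 (h2 z hz)
    have h4 := hQe k (fun j => eval c (vvY k r j)) (by
      rw [hchart.one, map_one]
      exact one_ne_zero)
    rw [aeval_eq_eval, aeval_eq_eval, h3] at h4
    have h5 : (fun i => eval c (vvY k r (rrY r i)) / eval c (vvY k r (j0 r))) = c := by
      funext i
      rw [hchart.one, map_one, div_one, hchart.coord, eval_X]
    rw [h5, hchart.one, map_one, one_pow, one_mul] at h4
    exact h4.symm
  refine ⟨Yc, hind, ?_, ?_⟩
  · rw [eq_top_iff, ← hrat]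
    unfold ratX
    rw [IntermediateField.adjoin_le_iff]
    rintro _ ⟨⟨a, b⟩, rfl⟩
    show w a / w b ∈ IntermediateField.adjoin k (Set.range Yc)
    rw [K4 a, K4 b, mul_div_mul_left _ _ hwj]
    exact div_mem (aeval_mem _ _) (aeval_mem _ _)
  · refine ⟨x a₀ / symm w a₀ * w (j0 r), mul_ne_zero (div_ne_zero ha₀ hsa) hwj, ?_⟩
    have h1 : w = w (j0 r) • ptY (U0 Yc) (V0 Yc) ![1, Yc (.inr 0)] ![1, Yc (.inr 1), Yc (.inr 2)] := by
      funext j
      rw [Pi.smul_apply, smul_eq_mul, ← aeval_vvY (k := k), ← K4 j]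
    have h2 : symm w = w (j0 r) • xOf Yc := by
      conv_lhs => rw [h1]
      rw [symm_smul, symm_ptY]
      rfl
    refine hxs.trans ?_
    funext j
    have h3 : symm w j = w (j0 r) * xOf Yc j := congrFun h2 j
    rw [h3]
    ring

end Pool.Agent.Y166.LT.MODEL
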