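import Pool.Agent.Y166.LT.Defs
import Pool.Agent.Y198.MC.Stm

/-! Project LT: statements of the steps. -/

set_option autoImplicit false
set_option linter.unusedSectionVars false

namespace Pool.Agent.Y166.LT

open MvPolynomial Pool.Agent.Y166.GM Pool.Agent.Y166.SM Pool.Agent.Y198.MC
open FF (Place)

section
variable {k K : Type} [Field k] [Field K] [Algebra k K]

/-- The action of a matrix on vectors. -/
def act {N : ℕ} (g : Matrix (Fin N) (Fin N) k) (u : Fin N → K) : Fin N → K :=
  fun i => ∑ j, algebraMap k K (g i j) * u j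

/-- The action of a matrix on tensors. -/
def actX {N : ℕ} (g : Matrix (Fin N) (Fin N) k) (x : Co N → K) : Co N → K := fun t =>
  ∑ s : Co N, algebraMap k K (g t.1.1 s.1.1 * g t.1.2 s.1.2 *
    (g t.2.1 s.2.1 * g t.2.2.1 s.2.2.1 * g t.2.2.2 s.2.2.2)) * x s

/-- The point of `X` with the coordinates `Y` in the chart of the covering. -/
def xOf {r : ℕ} (Y : Ch r → K) : Co (r + 2) → K :=
  ptX (U0 Y) (V0 Y) (mulc ![1, Y (.inr 0)] ![1, Y (.inr 1), Y (.inr 2)])

/-- `K` is the function field of the covering `YY`, with the coordinates `Y` of the standard chart,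
and `x` is the generic point of `X`. -/
structure Ctx (k K : Type) [Field k] [Field K] [Algebra k K] (r : ℕ) (Y : Ch r → K)
    (x : Co (r + 2) → K) : Prop where
  ind : AlgebraicIndependent k Y
  top : IntermediateField.adjoin k (Set.range Y) = ⊤
  eq : ∃ c : K, c ≠ 0 ∧ x = fun j => c * xOf Y j

/-- The equation of the ramification divisor in the chart. -/
noncomputable def rho (k : Type) [Field k] (r : ℕ) : MvPolynomial (Ch r) k :=
  X (.inr 0) ^ 2 - 2 * X (.inr 1) * X (.inr 0) + X (.inr 2)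

/-- The coordinates in the chart translated by the matrix `g`. -/
def Yg {r : ℕ} (g : Matrix (Fin (r + 2)) (Fin (r + 2)) k) (Y : Ch r → K) : Ch r → K := fun j =>
  ptY (act g (U0 Y)) (act g (V0 Y)) ![1, Y (.inr 0)] ![1, Y (.inr 1), Y (.inr 2)] (rrY r j) /
    ptY (act g (U0 Y)) (act g (V0 Y)) ![1, Y (.inr 0)] ![1, Y (.inr 1), Y (.inr 2)] (j0 r)

/-- `v` is the valuation of the irreducible polynomial `h` in the elements `t`. -/
def IsPl {σ : Type} (t : σ → K) (v : Place k K) (h : MvPolynomial σ k) : Prop :=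
  v.ord (aeval t h) = 1 ∧ ∀ F : MvPolynomial σ k, ¬ h ∣ F → v.ord (aeval t F) = 0

/-- `v` is centred in the standard chart of `X`. -/
def Cen {r : ℕ} (x : Co (r + 2) → K) (v : Place k K) : Prop :=
  x (j0 r) ≠ 0 ∧ ∀ j, v.Reg (x j / x (j0 r))

end

/-- The variables `u, v, x, q`. -/
abbrev Sy (r : ℕ) : Type := Fin (r + 2) ⊕ (Fin (r + 2) ⊕ (Fin 2 ⊕ Fin 3))

section
variable {L : Type} [CommRing L] {r : ℕ}

def tu (t : Sy r → L) : Fin (r + 2) → L := fun i => t (.inl i)
def tv (t : Sy r → L) : Fin (r + 2) → L := fun i => t (.inr (.inl i))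
def tx (t : Sy r → L) : Fin 2 → L := fun i => t (.inr (.inr (.inl i)))
def tq (t : Sy r → L) : Fin 3 → L := fun i => t (.inr (.inr (.inr i)))

/-- The point of the covering with the parameters `t`. -/
def wS (t : Sy r → L) : Co (r + 2) → L := ptY (tu t) (tv t) (tx t) (tq t)

/-- The Plücker coordinate `(0, 1)`. -/
def P01 (t : Sy r → L) : L := wdg (tu t) (tv t) (0, 1)

/-- The coordinate `0` of the vector. -/
def X0 (t : Sy r → L) : L := vec (tu t) (tv t) (tx t) 0

/-- The coordinate `(0, 0)` of the symmetric tensor of degree two. -/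
def Q00 (t : Sy r → L) : L := quad (tu t) (tv t) (tq t) (0, 0)

/-- The equation of the ramification divisor. -/
def RR (t : Sy r → L) : L := tq t 0 * tx t 1 ^ 2 - 2 * tq t 1 * tx t 0 * tx t 1 + tq t 2 * tx t 0 ^ 2

end

/-- `L` is the field of rational functions in the parameters `t`, and `K` is the subfield of the
rational functions of the covering. -/
structure Emb (k K L : Type) [Field k] [Field K] [Field L] [Algebra k K] [Algebra k L]
    [Algebra K L] (r : ℕ) (Y : Ch r → K) (t : Sy r → L) : Prop where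
  ind : AlgebraicIndependent k t
  top : IntermediateField.adjoin k (Set.range t) = ⊤
  coord : ∀ j, algebraMap K L (Y j) = wS t (rrY r j) / wS t (j0 r)

/-! ### General statements -/

/-- ORD: the valuation of an irreducible polynomial. -/
def S_ORD : Prop := ∀ (k K σ : Type) [Field k] [Field K] [Algebra k K] (t : σ → K),
  AlgebraicIndependent k t → IntermediateField.adjoin k (Set.range t) = ⊤ →
  ∀ h : MvPolynomial σ k, Irreducible h → ∃ v : Place k K, IsPl t v h

/-- CENT: a centre of codimension one on an affine space is principal. -/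
def S_CENT : Prop := ∀ (k K σ : Type) [Field k] [CharZero k] [Field K] [Algebra k K] [Fintype σ]
  (t : σ → K) (v : Place k K) (m : ℕ), AlgebraicIndependent k t → (∀ i, v.Reg (t i)) →
  Fintype.card σ ≤ m + 1 → ∀ y : Fin m → K,
  (∀ i, ∃ A B : MvPolynomial σ k, aeval t B ≠ 0 ∧ v.ord (aeval t B) = 0 ∧
    y i = aeval t A / aeval t B) →
  (∀ p : MvPolynomial (Fin m) k, p ≠ 0 → aeval y p ≠ 0 ∧ v.ord (aeval y p) = 0) →
  (∀ F : MvPolynomial σ k, v.ord (aeval t F) = 0) ∨
  ∃ h : MvPolynomial σ k, Irreducible h ∧ 0 < v.ord (aeval t h) ∧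
    ∀ F : MvPolynomial σ k, ¬ h ∣ F → v.ord (aeval t F) = 0

/-- GAUSS: the extension of a valuation to a purely transcendental extension. -/
def S_GAUSS : Prop := ∀ (k K L ι : Type) [Field k] [Field K] [Field L] [Algebra k K] [Algebra k L]
  [Algebra K L] [IsScalarTower k K L] [Finite ι] (T : ι → L), AlgebraicIndependent K T →
  IntermediateField.adjoin K (Set.range T) = ⊤ → ∀ v : Place k K, ∃ w : Place k L,
    (∀ φ : K, w.ord (algebraMap K L φ) = v.ord φ) ∧
    ∀ F : MvPolynomial ι K, (∀ s, v.Reg (F.coeff s)) →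
      w.Reg (aeval T F) ∧ ((∃ s, F.coeff s ≠ 0 ∧ v.ord (F.coeff s) = 0) →
        aeval T F ≠ 0 ∧ w.ord (aeval T F) = 0)

/-! ### The charts -/

/-- SYM: translation of the charts. -/
def S_SYM : Prop := ∀ (k K : Type) [Field k] [CharZero k] [Field K] [Algebra k K] (r : ℕ)
  (Y : Ch r → K) (x : Co (r + 2) → K), Ctx k K r Y x →
  ∀ g : Matrix (Fin (r + 2)) (Fin (r + 2)) k, g.det ≠ 0 →
    Ctx k K r (Yg g Y) (actX g x)

/-- INV: the notions do not depend on the homogeneous coordinates. -/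
def S_INV : Prop := ∀ (k K : Type) [Field k] [Field K] [Algebra k K] (N n : ℕ) (x : Co N → K)
  (g : Matrix (Fin N) (Fin N) k), g.det ≠ 0 →
    ratX k (actX g x) = ratX k x ∧ ∀ v : Place k K, Unram n (actX g x) v ↔ Unram n x v

/-- CHOOSE: every valuation is centred in a translated chart. -/
def S_CHOOSE : Prop := ∀ (k K : Type) [Field k] [CharZero k] [Field K] [Algebra k K]
  (r : ℕ) (Y : Ch r → K) (x : Co (r + 2) → K), Ctx k K r Y x → ∀ v : Place k K,
    ∃ g : Matrix (Fin (r + 2)) (Fin (r + 2)) k, g.det ≠ 0 ∧ Cen (actX g x) v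

/-- INT: the coordinates of the covering are integral over the chart of `X`. -/
def S_INT : Prop := ∀ (k K : Type) [Field k] [CharZero k] [Field K] [Algebra k K] (r : ℕ)
  (Y : Ch r → K) (x : Co (r + 2) → K), Ctx k K r Y x → ∀ v : Place k K, Cen x v →
    ∀ j, v.Reg (Y j)

/-- CLS: the unramified valuations centred in the chart. -/
def S_CLS : Prop := ∀ (k K : Type) [Field k] [CharZero k] [Field K] [Algebra k K] (r : ℕ)
  (Y : Ch r → K) (x : Co (r + 2) → K), Ctx k K r Y x → ∀ v : Place k K,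
    Unram (2 * r + 3) x v → Cen x v → ∃ h : MvPolynomial (Ch r) k, Irreducible h ∧ IsPl Y v h

/-- RAM: the ramification divisor is not unramified. -/
def S_RAM : Prop := ∀ (k K : Type) [Field k] [CharZero k] [Field K] [Algebra k K] (r : ℕ)
  (Y : Ch r → K) (x : Co (r + 2) → K), Ctx k K r Y x → ∀ v : Place k K,
    Unram (2 * r + 3) x v → Cen x v → v.ord (aeval Y (rho k r)) = 0

/-- UNR: the other divisors of the chart are unramified. -/
def S_UNR : Prop := ∀ (k K : Type) [Field k] [IsAlgClosed k] [CharZero k] [Field K] [Algebra k K]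
  (r : ℕ) (Y : Ch r → K) (x : Co (r + 2) → K), Ctx k K r Y x →
  ∀ h : MvPolynomial (Ch r) k, Irreducible h → ¬ h ∣ rho k r →
    ∃ v : Place k K, IsPl Y v h ∧ Unram (2 * r + 3) x v

/-! ### The parameters `u, v, x, q` -/

/-- EMB -/
def S_EMB : Prop := ∀ (k K : Type) [Field k] [CharZero k] [Field K] [Algebra k K] (r : ℕ)
  (Y : Ch r → K) (x : Co (r + 2) → K), Ctx k K r Y x →
  ∃ (L : Type) (_ : Field L) (_ : Algebra k L) (_ : Algebra K L) (_ : IsScalarTower k K L)
    (t : Sy r → L), Emb k K L r Y t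

/-- IRR: the four irreducible polynomials. -/
def S_IRR : Prop := ∀ (k : Type) [Field k] [CharZero k] (r : ℕ),
  Irreducible (P01 (X : Sy r → MvPolynomial (Sy r) k)) ∧
  Irreducible (X0 (X : Sy r → MvPolynomial (Sy r) k)) ∧
  Irreducible (Q00 (X : Sy r → MvPolynomial (Sy r) k)) ∧
  Irreducible (RR (X : Sy r → MvPolynomial (Sy r) k)) ∧
  Irreducible (rho k r)

/-- FORM: the formulas for the generic point in `L`. -/
def S_FORM : Prop := ∀ (k K L : Type) [Field k] [CharZero k] [Field K] [Field L] [Algebra k K]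
  [Algebra k L] [Algebra K L] [IsScalarTower k K L] (r : ℕ) (Y : Ch r → K)
  (x : Co (r + 2) → K) (t : Sy r → L), Ctx k K r Y x → Emb k K L r Y t →
    wS t (j0 r) = P01 t * (X0 t * Q00 t) ∧ P01 t ≠ 0 ∧ X0 t ≠ 0 ∧ Q00 t ≠ 0 ∧
    (∃ c : L, c ≠ 0 ∧ ∀ j, algebraMap K L (x j) = c * ptX (tu t) (tv t) (mulc (tx t) (tq t)) j) ∧
    algebraMap K L (aeval Y (rho k r)) * (X0 t ^ 2 * Q00 t) = RR t * P01 t ^ 2

/-- EXT: the unramified valuations are induced by irreducible polynomials in `u, v, x, q`. -/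
def S_EXT : Prop := ∀ (k K L : Type) [Field k] [CharZero k] [Field K] [Field L] [Algebra k K]
  [Algebra k L] [Algebra K L] [IsScalarTower k K L] (r : ℕ) (Y : Ch r → K)
  (x : Co (r + 2) → K) (t : Sy r → L), Ctx k K r Y x → Emb k K L r Y t →
  ∀ v : Place k K, Unram (2 * r + 3) x v →
    ∃ (h : MvPolynomial (Sy r) k) (w : Place k L), Irreducible h ∧ IsPl t w h ∧
      ∀ φ : K, w.ord (algebraMap K L φ) = v.ord φ

/-- KAP1: functions regular outside the ramification divisor, in the chart. -/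
def S_KAP1 : Prop := ∀ (k K : Type) [Field k] [IsAlgClosed k] [CharZero k] [Field K]
  [Algebra k K] (r : ℕ) (Y : Ch r → K) (x : Co (r + 2) → K), Ctx k K r Y x →
  ∀ φ : K, (∀ v : Place k K, Unram (2 * r + 3) x v → v.Reg φ) →
    ∃ (M : ℕ) (A : MvPolynomial (Ch r) k), φ * aeval Y (rho k r) ^ M = aeval Y A

/-- KAP2: such functions in terms of the parameters. -/
def S_KAP2 : Prop := ∀ (k K L : Type) [Field k] [IsAlgClosed k] [CharZero k] [Field K] [Field L]
  [Algebra k K] [Algebra k L] [Algebra K L] [IsScalarTower k K L] (r : ℕ), 1 ≤ r →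
  ∀ (Y : Ch r → K) (x : Co (r + 2) → K) (t : Sy r → L), Ctx k K r Y x → Emb k K L r Y t →
  ∀ φ : K, (∀ v : Place k K, Unram (2 * r + 3) x v → v.Reg φ) →
    ∃ (M : ℕ) (A : MvPolynomial (Sy r) k), algebraMap K L φ * RR t ^ M = aeval t A

/-- KAP3: such functions are constant. -/
def S_KAP3 : Prop := ∀ (k K L : Type) [Field k] [IsAlgClosed k] [CharZero k] [Field K] [Field L]
  [Algebra k K] [Algebra k L] [Algebra K L] [IsScalarTower k K L] (r : ℕ)
  (Y : Ch r → K) (x : Co (r + 2) → K) (t : Sy r → L), Ctx k K r Y x → Emb k K L r Y t →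
  ∀ φ : K, (∃ (M : ℕ) (A : MvPolynomial (Sy r) k), algebraMap K L φ * RR t ^ M = aeval t A) →
    φ ∈ Set.range (algebraMap k K)

/-- FACE: the map on the face is injective. -/
def S_FACE : Prop := ∀ (k K : Type) [Field k] [IsAlgClosed k] [CharZero k] [Field K]
  [Algebra k K] (r : ℕ), 1 ≤ r → ∀ (Y : Ch r → K) (x : Co (r + 2) → K), Ctx k K r Y x →
    ¬ FaceContr (k := k) (2 * r + 3) x

/-! ### Geometry -/

/-- MODEL: the function field of a variety birational to the covering. -/
def S_MODEL : Prop := ∀ (k K : Type) [Field k] [IsAlgClosed k] [CharZero k] [Field K]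
  [Algebra k K] (r m : ℕ), 1 ≤ r → ∀ (Z : Set (PP k (Fin (m + 1))))
  (f : PP k (Fin (m + 1)) → PP k (Co (r + 2))), IsProjVar Z → IsMorphism Z f →
  BirOver Z f (YY k (r + 2)) (cov k (r + 2)) →
  ∀ (y : Fin (m + 1) → K) (x : Co (r + 2) → K), IsModel Z f K y x →
    ∃ Y : Ch r → K, Ctx k K r Y x

/-- DOM: birational morphisms, and morphisms birational to the covering, are dominant. -/
def S_DOM : Prop := ∀ (k : Type) [Field k] [IsAlgClosed k] [CharZero k] (r m : ℕ), 1 ≤ r →
  ∀ (Z : Set (PP k (Fin (m + 1)))) (f : PP k (Fin (m + 1)) → PP k (Co (r + 2))), IsProjVar Z →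
  IsMorphism Z f → Set.MapsTo f Z (XX k (r + 2)) →
  (Birational Z (XX k (r + 2)) f ∨ BirOver Z f (YY k (r + 2)) (cov k (r + 2))) →
    Dominant Z (XX k (r + 2)) f

end Pool.Agent.Y166.LT
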