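import Pool.Agent.Y166.LT.Fin
import Pool.Agent.Y198.MC.All
import Pool.Agent.Y36.LT.ORD
import Pool.Agent.Y36.LT.CENT
import Pool.Agent.Y36.LT.GAUSS
import Pool.Agent.Y846.LT.SYM
import Pool.Agent.Y166.LT.INV
import Pool.Agent.Y442.LT.CHOOSE
import Pool.Agent.Y896.LT.INT
import Pool.Agent.Y896.LT.CLS
import Pool.Agent.Y211.LT.RAM
import Pool.Agent.Y776.LT.UNR
import Pool.Agent.Y518.LT.EMB
import Pool.Agent.Y166.LT.IRR
import Pool.Agent.Y166.LT.FORM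
import Pool.Agent.Y76.LT.EXT
import Pool.Agent.Y442.LT.KAP1
import Pool.Agent.Y442.LT.KAP2
import Pool.Agent.Y536.LT.KAP3
import Pool.Agent.Y846.LT.FACE
import Pool.Agent.Y166.LT.MODEL
import Pool.Agent.Y166.LT.DOM

/-! All the lemmas together. -/

set_option autoImplicit false

namespace Pool.Agent.Y166.LT

open MvPolynomial Pool.Agent.Y166.GM Pool.Agent.Y166.SM Pool.Agent.Y198.MC

theorem tINT : S_INT := Pool.Agent.Y896.LT.INT.done
theorem tCLS : S_CLS := Pool.Agent.Y896.LT.CLS.done Pool.Agent.Y36.LT.CENT.done tINT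
theorem tUNR : S_UNR := Pool.Agent.Y776.LT.UNR.done Pool.Agent.Y36.LT.ORD.done
  Pool.Agent.Y36.LT.CENT.done
theorem tEXT : S_EXT := Pool.Agent.Y76.LT.EXT.done Pool.Agent.Y36.LT.GAUSS.done
  Pool.Agent.Y36.LT.CENT.done Pool.Agent.Y442.LT.CHOOSE.done Pool.Agent.Y846.LT.SYM.done
  Pool.Agent.Y166.LT.INV.done tINT Pool.Agent.Y166.LT.FORM.done
theorem tKAP1 : S_KAP1 := Pool.Agent.Y442.LT.KAP1.done tUNR Pool.Agent.Y166.LT.IRR.done
theorem tKAP2 : S_KAP2 := Pool.Agent.Y442.LT.KAP2.done tKAP1 Pool.Agent.Y846.LT.SYM.done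
  Pool.Agent.Y166.LT.INV.done Pool.Agent.Y166.LT.FORM.done Pool.Agent.Y166.LT.IRR.done
theorem tKAP3 : S_KAP3 := Pool.Agent.Y536.LT.KAP3.done
theorem tRAM : S_RAM := Pool.Agent.Y211.LT.RAM.done Pool.Agent.Y36.LT.CENT.done tINT
theorem tFACE : S_FACE := Pool.Agent.Y846.LT.FACE.done tEXT tCLS tRAM
  Pool.Agent.Y846.LT.SYM.done Pool.Agent.Y166.LT.INV.done Pool.Agent.Y442.LT.CHOOSE.done
  Pool.Agent.Y518.LT.EMB.done Pool.Agent.Y166.LT.FORM.done Pool.Agent.Y166.LT.IRR.done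
theorem tMODEL : S_MODEL := Pool.Agent.Y166.LT.MODEL.done Pool.Agent.Y930.MC.Chart.done
  Pool.Agent.Y406.MC.Cov.done Pool.Agent.Y215.MC.Y.done
theorem tDOM : S_DOM := Pool.Agent.Y166.LT.DOM.done Pool.Agent.Y215.MC.X.done
  Pool.Agent.Y215.MC.Y.done Pool.Agent.Y406.MC.Cov.done

theorem twoL {k : Type} [Field k] [IsAlgClosed k] [CharZero k] {N : ℕ} (hN : 3 ≤ N)
    (e d : ℕ) (h1 : 3 * e + 5 ≤ 2 * d) (h2 : d + 1 ≤ 2 * e) :
    2 ≤ (maninL (2 * N - 1) (XX k N) e d).encard := by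
  obtain ⟨r, rfl⟩ : ∃ r, N = r + 2 := ⟨N - 2, by omega⟩
  obtain ⟨m, hm⟩ : ∃ m, 2 * e = d + m := ⟨2 * e - d, by omega⟩
  obtain ⟨n, hn⟩ : ∃ n, d = e + n := ⟨d - e, by omega⟩
  have he : e = m + n := by omega
  have hd : d = m + 2 * n := by omega
  subst he
  rw [hd]
  have e3 : 2 * (r + 2) - 1 = 2 * r + 3 := by omega
  rw [e3]
  exact two_maninL stmMem Pool.Agent.Y168.MC.done Pool.Agent.Y442.MC.done1 Pool.Agent.Y442.MC.done2
    stmDense2 Pool.Agent.Y473.MC.done tTr tLift1 tLift2 tDOM tMODEL tKAP2 tKAP3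
    Pool.Agent.Y518.LT.EMB.done tFACE (by omega) m n (by omega) (by omega)

end Pool.Agent.Y166.LT
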