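import Pool.Agent.Y198.MC.Defs
import Pool.Agent.Helper386.D5V.Helper386_FF_Place

/-!
# Breaking morphisms in terms of valuations

`f : Y → X` is a dominant generically finite morphism from a smooth projective variety `Y` to a
smooth projective variety `X` of dimension `n`; `K` is the function field of `Y`, and `x` are the
homogeneous coordinates of the generic point of `X` in `K`, so that the function field of `X` is the
subfield `ratX k x` of `K` generated by the quotients of these coordinates.

`K_Y - f ^* K_X = ∑ r_E E` is the ramification divisor. It is effective (so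
`a(Y, - f ^* K_X) ≤ 1`), and `r_E = 0` if and only if `E` dominates a prime divisor of `X` over
which it is not ramified.
-/

set_option autoImplicit false
set_option linter.unusedSectionVars false

namespace Pool.Agent.Y166.LT

open MvPolynomial Pool.Agent.Y166.GM Pool.Agent.Y166.SM
open FF (Place)

section
variable {k K τ : Type} [Field k] [Field K] [Algebra k K]

/-- The field of rational functions of the variety with the generic point `x`. -/
def ratX (k : Type) {K τ : Type} [Field k] [Field K] [Algebra k K] (x : τ → K) :
    IntermediateField k K :=
  IntermediateField.adjoin k (Set.range fun p : τ × τ => x p.1 / x p.2)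

/-- The rational function `φ` is regular at the centre of the valuation `v` on the projective
variety with the generic point `x`: it is the quotient `A(x) / B(x)` of two forms of the same degree
such that `B` does not vanish at the centre, i.e. `B(x)` has the smallest order at `v` among the
values at `x` of the forms of this degree. -/
def RegAtCentre (x : τ → K) (v : Place k K) (φ : K) : Prop :=
  ∃ (m : ℕ) (A B : MvPolynomial τ k), A.IsHomogeneous m ∧ B.IsHomogeneous m ∧ aeval x B ≠ 0 ∧
    φ = aeval x A / aeval x B ∧
    ∀ C : MvPolynomial τ k, C.IsHomogeneous m → v.Reg (aeval x C / aeval x B)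

/-- The valuation `v` of the function field of `Y` is unramified over the projective variety `X` of
dimension `n` with the generic point `x`, and its centre on `X` is a prime divisor: `v` takes the
value `1` at a rational function of `X`, and there are `n - 1` rational functions regular at the
centre of `v` on `X` with algebraically independent values there. -/
def Unram (n : ℕ) (x : τ → K) (v : Place k K) : Prop :=
  (∃ φ ∈ ratX k x, v.ord φ = 1) ∧
  ∃ y : Fin (n - 1) → K, (∀ i, RegAtCentre x v (y i)) ∧
    ∀ p : MvPolynomial (Fin (n - 1)) k, p ≠ 0 → aeval y p ≠ 0 ∧ v.ord (aeval y p) = 0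

/-- The Iitaka dimension of the ramification divisor is positive: there is a nonconstant rational
function which is regular at all prime divisors of `Y` outside the ramification divisor. -/
def KappaPos (n : ℕ) (x : τ → K) : Prop :=
  ∃ φ : K, φ ∉ Set.range (algebraMap k K) ∧ ∀ v : Place k K, Unram n x v → v.Reg φ

/-- `γ` is a nef class of curves on `Y` with intersection number zero with the ramification
divisor: nonnegative numbers, the intersection numbers with the prime divisors of `Y`, which are
zero for the divisors in the support of the ramification divisor, such that the principal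
divisors have intersection number zero. -/
def IsFace (n : ℕ) (x : τ → K) (γ : Place k K → ℝ) : Prop :=
  (∀ v, 0 ≤ γ v) ∧ (∀ v, ¬ Unram n x v → γ v = 0) ∧
    ∀ φ : K, φ ≠ 0 → ∑ᶠ v : Place k K, (v.ord φ : ℝ) * γ v = 0

/-- The valuations `v` and `w` have the same restriction to the function field of `X`. -/
def Above (x : τ → K) (w v : Place k K) : Prop := ∀ φ ∈ ratX k x, v.ord φ = w.ord φ

/-- The map `f_*` from the nef classes of curves on `Y` with intersection number zero with the
ramification divisor to the classes of curves on `X` is not injective: the intersection number of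
`f_* γ` with the prime divisor `D` of `X` is the sum of the numbers `γ E` for the prime divisors `E`
of `Y` above `D`. -/
def FaceContr (n : ℕ) (x : τ → K) : Prop :=
  ∃ γ₁ γ₂ : Place k K → ℝ, IsFace n x γ₁ ∧ IsFace n x γ₂ ∧ γ₁ ≠ γ₂ ∧
    ∀ w : Place k K, Unram n x w →
      ∑ᶠ (v : Place k K) (_ : Above x w v), γ₁ v = ∑ᶠ (v : Place k K) (_ : Above x w v), γ₂ v

end

section
variable {k : Type} [Field k] {ρ σ τ : Type}

/-- `K` is the function field of `Y`, `y` are the homogeneous coordinates of its generic point, and
`x` are the homogeneous coordinates of its image under `f`. -/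
structure IsModel (Y : Set (PP k ρ)) (f : PP k ρ → PP k τ) (K : Type) [Field K] [Algebra k K]
    (y : ρ → K) (x : τ → K) : Prop where
  gen : ∀ (l : ℕ) (Q : MvPolynomial ρ k), Q.IsHomogeneous l →
    (aeval y Q = 0 ↔ ∀ z ∈ Y, eval z.rep Q = 0)
  top : ratX k y = ⊤
  img : ∃ (m : ℕ) (F : τ → MvPolynomial ρ k) (l : ℕ) (P : MvPolynomial ρ k),
    (∀ j, (F j).IsHomogeneous m) ∧ P.IsHomogeneous l ∧ aeval y P ≠ 0 ∧
    (∀ z ∈ Y, eval z.rep P ≠ 0 → Rep (f z) (fun j => eval z.rep (F j))) ∧
    x = fun j => aeval y (F j)

/-- The morphism `f : Y → X` is not dominant, or it is not birational and the Iitaka dimension of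
`K_Y - f ^* K_X` is positive or `f_*` is not injective on the face of the nef cone of curves
orthogonal to `K_Y - f ^* K_X`. The dimension of `X` is `n`. -/
def BreakingL (n : ℕ) (X : Set (PP k τ)) (Y : Set (PP k ρ)) (f : PP k ρ → PP k τ) : Prop :=
  ¬ Dominant Y X f ∨ ¬ Birational Y X f ∧
    ∃ (K : Type) (_ : Field K) (_ : Algebra k K) (y : ρ → K) (x : τ → K),
      IsModel Y f K y x ∧ (KappaPos (k := k) n x ∨ FaceContr (k := k) n x)

variable {e d : ℕ}

/-- The component `M` of the space of the morphisms of bidegree `(e, d)` from the projective line to
`X` is accumulating: there are a breaking morphism `f : Y → X`, generically finite onto its image,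
from a projective variety `Y`, and a component `N` of the space of the morphisms from the projective
line to `Y`, such that the composition with `f` is a dominant map from `N` to `M`. -/
def AccL (n : ℕ) {X : Set (PP k (σ × τ))} (M : Set (MorBi X e d)) : Prop :=
  ∃ (m : ℕ) (Y : Set (PP k (Fin (m + 1)))) (f : PP k (Fin (m + 1)) → PP k (σ × τ)),
    IsProjVar Y ∧ IsMorphism Y f ∧ Set.MapsTo f Y X ∧ GenFinite Y f ∧ BreakingL n X Y f ∧
    ∃ (e₁ : ℕ), ∃ N ∈ irreducibleComponents (Mor Y e₁),
      (∀ g ∈ N, ∃ h ∈ M, Pool.Agent.Y198.MC.IsCompBi f g.1 h.1) ∧
      M ⊆ closure {h | h ∈ M ∧ ∃ g ∈ N, Pool.Agent.Y198.MC.IsCompBi f g.1 h.1}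

/-- The Manin components of the space of the morphisms of bidegree `(e, d)` from the projective line
to the variety `X` of dimension `n`. -/
def maninL (n : ℕ) (X : Set (PP k (σ × τ))) (e d : ℕ) : Set (Set (MorBi X e d)) :=
  {M | M ∈ irreducibleComponents (MorBi X e d) ∧ ¬ AccL n M}

end

end Pool.Agent.Y166.LT
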