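import Pool.Agent.Y198.MC.Stm

/-!
# The anticanonical bundle by the Jacobian determinants of the changes of coordinates
-/

set_option autoImplicit false
set_option linter.unusedSectionVars false

namespace Pool.Agent.Y166.LT

open MvPolynomial Pool.Agent.Y166.GM Pool.Agent.Y198.MC

/-- The Jacobian determinant of the rational functions `f i / g`, multiplied by `g ^ (2 n)`, where
`n` is the number of the variables. -/
noncomputable def jac {k I : Type} [Field k] [Fintype I] [DecidableEq I]
    (f : I → MvPolynomial I k) (g : MvPolynomial I k) : MvPolynomial I k :=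
  (Matrix.of fun i l => pderiv l (f i) * g - f i * pderiv l g).det

/-- The projective variety `Z`, embedded by the products `x s * y t` of two kinds of coordinates, is
covered by affine spaces `α` of dimension `d`, the sets on which the coordinate `j α` does not
vanish, with the coordinates `z (ρ α i) / z (j α)`, and `- K_Z` is the line bundle `O (a, b)`: the
Jacobian determinants of the changes of the affine coordinates are, up to nonzero constants,
`(x s / x s') ^ a * (y t / y t') ^ b`, where `j α = (s, t)`, `j β = (s', t')`. -/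
def AntiCan {k σ τ : Type} [Field k] (Z : Set (PP k (σ × τ))) (d a b : ℕ) : Prop :=
  ∃ (I A : Type) (_ : Fintype I) (_ : DecidableEq I) (j : A → σ × τ) (ρ : A → I → σ × τ)
    (ψ : A → σ × τ → MvPolynomial I k), Fintype.card I = d ∧
    (∀ α, IsChart Z (j α) (ρ α) (ψ α)) ∧ (∀ z ∈ Z, ∃ α, z.rep (j α) ≠ 0) ∧
    ∀ α β, ∃ c : k, c ≠ 0 ∧
      jac (fun i => ψ α (ρ β i)) (ψ α (j β)) * (ψ α ((j β).1, (j α).2) ^ a * ψ α (j β) ^ b) =
        C c * ψ α ((j β).1, (j α).2) ^ b * ψ α (j β) ^ (2 * d)

/-! ### The charts of `X` and the statements of the steps -/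

section
variable {A : Type} [CommRing A] {r : ℕ}

/-- The basis of the plane in the chart with the permutation `π`. -/
def Up (π : Equiv.Perm (Fin (r + 2))) (y : Ch r → A) : Fin (r + 2) → A := fun a => U0 y (π.symm a)
/-- The basis of the plane in the chart with the permutation `π`. -/
def Vp (π : Equiv.Perm (Fin (r + 2))) (y : Ch r → A) : Fin (r + 2) → A := fun a => V0 y (π.symm a)

/-- The coefficients of the cubic form: the coefficient `m` is one. -/
def cm (m : Fin 4) (x : Fin 3 → A) : Fin 4 → A := Fin.insertNth m 1 x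

/-- The indices of the coordinates of the tensor. -/
def tt {N : ℕ} (p q : Fin N) (n : Fin 4) : Ta N := ![(p, p, p), (p, p, q), (p, q, q), (q, q, q)] n

/-- The coefficients of the cubic form with the coefficients `c` in a new basis. -/
def GG (p q s t : A) (c : Fin 4 → A) (n : Fin 4) : A := cub ![p, s] ![q, t] c (tt (0 : Fin 2) 1 n)

end

/-- The index of the nonvanishing coordinate of the chart `(π, m)`. -/
def jF {r : ℕ} (α : Equiv.Perm (Fin (r + 2)) × Fin 4) : Co (r + 2) :=
  ((α.1 0, α.1 1), tt (α.1 0) (α.1 1) α.2)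

/-- The indices of the coordinates of the chart `(π, m)`. -/
def rF {r : ℕ} (α : Equiv.Perm (Fin (r + 2)) × Fin 4) : Ch r → Co (r + 2)
  | .inl (i, b) => (if b = 0 then (α.1 i.succ.succ, α.1 1) else (α.1 0, α.1 i.succ.succ),
      tt (α.1 0) (α.1 1) α.2)
  | .inr n => ((α.1 0, α.1 1), tt (α.1 0) (α.1 1) (α.2.succAbove n))

/-- The coordinates of the points of the chart `(π, m)`. -/
noncomputable def vF (k : Type) [Field k] {r : ℕ} (α : Equiv.Perm (Fin (r + 2)) × Fin 4) :
    Co (r + 2) → MvPolynomial (Ch r) k :=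
  ptX (Up α.1 X) (Vp α.1 X) (cm α.2 fun n => X (.inr n))

/-- FCH: the charts. -/
def S_FCH : Prop := ∀ (k : Type) [Field k] (r : ℕ), 1 ≤ r →
  (∀ α : Equiv.Perm (Fin (r + 2)) × Fin 4, IsChart (XX k (r + 2)) (jF α) (rF α) (vF k α)) ∧
  ∀ z ∈ XX k (r + 2), ∃ α : Equiv.Perm (Fin (r + 2)) × Fin 4, z.rep (jF α) ≠ 0

/-- FJA: the Jacobian determinant for the Grassmannian. -/
def S_FJA : Prop := ∀ (k : Type) [Field k] (r : ℕ) (π π' : Equiv.Perm (Fin (r + 2))),
  ∀ (u v : Fin (r + 2) → MvPolynomial (Ch r) k), u = Up π X → v = Vp π X →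
  ∀ (w : Fin r × Fin 2 → MvPolynomial (Ch r) k) (δ : MvPolynomial (Ch r) k),
    (∀ i, w (i, 0) = wdg u v (π' i.succ.succ, π' 1)) →
    (∀ i, w (i, 1) = wdg u v (π' 0, π' i.succ.succ)) → δ = wdg u v (π' 0, π' 1) →
    (Matrix.of fun p q : Fin r × Fin 2 =>
      pderiv (.inl q) (w p) * δ - w p * pderiv (.inl q) δ).det * δ ^ 2 = δ ^ (3 * r)

/-- FJC: the Jacobian determinant for the fibre. -/
def S_FJC : Prop := ∀ (R : Type) [CommRing R] (p q s t : R) (m m' : Fin 4) (x : Fin 3 → R),
  ∃ ε : ℤ, (ε = 1 ∨ ε = -1) ∧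
    (Matrix.of fun n l : Fin 3 =>
      GG p q s t (Pi.single (m.succAbove l) 1) (m'.succAbove n) * GG p q s t (cm m x) m' -
        GG p q s t (cm m x) (m'.succAbove n) *
          GG p q s t (Pi.single (m.succAbove l) 1) m').det =
      (ε : R) * (p * t - q * s) ^ 6 * GG p q s t (cm m x) m' ^ 2

/-- FANO: `- K_X` is the line bundle `O (N - 6, 4)`. -/
def S_FANO : Prop := ∀ (k : Type) [Field k] (N : ℕ), 7 ≤ N →
  AntiCan (XX k N) (2 * N - 1) (N - 6) 4

end Pool.Agent.Y166.LT
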