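import Pool.Agent.Y166.LT.MODEL

/-! Formulas for the generic point. -/

set_option autoImplicit false
set_option linter.unusedSectionVars false
set_option linter.deprecated false

namespace Pool.Agent.Y166.LT.FORM

open MvPolynomial Pool.Agent.Y166.LT
open Pool.Agent.Y198.MC (Co Ch j0 rrY vvY ptX ptY U0 V0 mulc symm wdg vec quad cub)
open Pool.Agent.Y794.MC.Lift2 (symm_ptY symm_smul map_ptY)

section
variable {L : Type} [Field L] {r : ℕ}

/-- The chart coordinates of the point with the parameters `t`. -/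
def yc (t : Sy r → L) : Ch r → L := fun j => wS t (rrY r j) / wS t (j0 r)

theorem wS_j0 (t : Sy r → L) : wS t (j0 r) = P01 t * (X0 t * Q00 t) := rfl

variable (t : Sy r → L) (h1 : P01 t ≠ 0) (h2 : X0 t ≠ 0) (h3 : Q00 t ≠ 0)

include h1 h2 h3

theorem yc_a (i : Fin r) : yc t (.inl (i, 0)) = wdg (tu t) (tv t) (i.succ.succ, 1) / P01 t := by
  have e : wS t (rrY r (.inl (i, 0))) = wdg (tu t) (tv t) (i.succ.succ, 1) * (X0 t * Q00 t) := rfl
  unfold yc
  rw [e, wS_j0, mul_div_mul_right _ _ (mul_ne_zero h2 h3)]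

theorem yc_b (i : Fin r) : yc t (.inl (i, 1)) = wdg (tu t) (tv t) (0, i.succ.succ) / P01 t := by
  have e : wS t (rrY r (.inl (i, 1))) = wdg (tu t) (tv t) (0, i.succ.succ) * (X0 t * Q00 t) := rfl
  unfold yc
  rw [e, wS_j0, mul_div_mul_right _ _ (mul_ne_zero h2 h3)]

theorem yc_0 : yc t (.inr 0) = vec (tu t) (tv t) (tx t) 1 / X0 t := by
  have e : wS t (rrY r (.inr 0)) = P01 t * (vec (tu t) (tv t) (tx t) 1 * Q00 t) := rfl
  unfold yc
  rw [e, wS_j0, mul_div_mul_left _ _ h1, mul_div_mul_right _ _ h3]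

theorem yc_1 : yc t (.inr 1) = quad (tu t) (tv t) (tq t) (0, 1) / Q00 t := by
  have e : wS t (rrY r (.inr 1)) = P01 t * (X0 t * quad (tu t) (tv t) (tq t) (0, 1)) := rfl
  unfold yc
  rw [e, wS_j0, mul_div_mul_left _ _ h1, mul_div_mul_left _ _ h2]

theorem yc_2 : yc t (.inr 2) = quad (tu t) (tv t) (tq t) (1, 1) / Q00 t := by
  have e : wS t (rrY r (.inr 2)) = P01 t * (X0 t * quad (tu t) (tv t) (tq t) (1, 1)) := rfl
  unfold yc
  rw [e, wS_j0, mul_div_mul_left _ _ h1, mul_div_mul_left _ _ h2]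

theorem tu_eq (i : Fin (r + 2)) :
    tu t i = tu t 0 * U0 (yc t) i + tu t 1 * V0 (yc t) i := by
  have hP : tu t 0 * tv t 1 - tv t 0 * tu t 1 ≠ 0 := h1
  refine Fin.cases ?_ (fun i => ?_) i
  · simp [U0, V0]
  · refine Fin.cases ?_ (fun i => ?_) i
    · simp [U0, V0]
    · simp only [U0, V0, Fin.cons_succ]
      rw [yc_a t h1 h2 h3, yc_b t h1 h2 h3]
      have e : P01 t = tu t 0 * tv t 1 - tv t 0 * tu t 1 := rfl
      rw [mul_div_assoc', mul_div_assoc', ← add_div, eq_div_iff h1, e]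
      simp only [wdg]
      ring

theorem tv_eq (i : Fin (r + 2)) :
    tv t i = tv t 0 * U0 (yc t) i + tv t 1 * V0 (yc t) i := by
  have hP : tu t 0 * tv t 1 - tv t 0 * tu t 1 ≠ 0 := h1
  refine Fin.cases ?_ (fun i => ?_) i
  · simp [U0, V0]
  · refine Fin.cases ?_ (fun i => ?_) i
    · simp [U0, V0]
    · simp only [U0, V0, Fin.cons_succ]
      rw [yc_a t h1 h2 h3, yc_b t h1 h2 h3]
      have e : P01 t = tu t 0 * tv t 1 - tv t 0 * tu t 1 := rfl
      rw [mul_div_assoc', mul_div_assoc', ← add_div, eq_div_iff h1, e]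
      simp only [wdg]
      ring

theorem wS_eq (j : Co (r + 2)) : wS t j = (P01 t * (X0 t * Q00 t)) *
    ptY (U0 (yc t)) (V0 (yc t)) ![1, yc t (.inr 0)] ![1, yc t (.inr 1), yc t (.inr 2)] j := by
  have hu := tu_eq t h1 h2 h3
  have hv := tv_eq t h1 h2 h3
  have e0 : ∀ s, wdg (tu t) (tv t) s = P01 t * wdg (U0 (yc t)) (V0 (yc t)) s := by
    intro s
    have e : P01 t = tu t 0 * tv t 1 - tv t 0 * tu t 1 := rfl
    rw [e]
    simp only [wdg]
    rw [hu s.1, hu s.2, hv s.1, hv s.2]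
    ring
  have e1 : ∀ i, vec (tu t) (tv t) (tx t) i =
      X0 t * vec (U0 (yc t)) (V0 (yc t)) ![1, yc t (.inr 0)] i := by
    intro i
    rw [yc_0 t h1 h2 h3]
    have e : X0 t = tx t 0 * tu t 0 + tx t 1 * tv t 0 := rfl
    have e' : X0 t * vec (U0 (yc t)) (V0 (yc t)) ![1, vec (tu t) (tv t) (tx t) 1 / X0 t] i =
        X0 t * U0 (yc t) i + vec (tu t) (tv t) (tx t) 1 * V0 (yc t) i := by
      simp only [vec, Matrix.cons_val_zero, Matrix.cons_val_one]
      rw [mul_add, one_mul, ← mul_assoc, mul_div_cancel₀ _ h2]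
    rw [e', e]
    simp only [vec]
    rw [hu i, hv i]
    ring
  have e2 : ∀ s, quad (tu t) (tv t) (tq t) s =
      Q00 t * quad (U0 (yc t)) (V0 (yc t)) ![1, yc t (.inr 1), yc t (.inr 2)] s := by
    intro s
    rw [yc_1 t h1 h2 h3, yc_2 t h1 h2 h3]
    have e : Q00 t = tq t 0 * (tu t 0 * tu t 0) + tq t 1 * (tu t 0 * tv t 0 + tv t 0 * tu t 0) +
      tq t 2 * (tv t 0 * tv t 0) := rfl
    have e' : Q00 t * quad (U0 (yc t)) (V0 (yc t)) ![1, quad (tu t) (tv t) (tq t) (0, 1) / Q00 t,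
        quad (tu t) (tv t) (tq t) (1, 1) / Q00 t] s =
        Q00 t * (U0 (yc t) s.1 * U0 (yc t) s.2) + quad (tu t) (tv t) (tq t) (0, 1) *
          (U0 (yc t) s.1 * V0 (yc t) s.2 + V0 (yc t) s.1 * U0 (yc t) s.2) +
          quad (tu t) (tv t) (tq t) (1, 1) * (V0 (yc t) s.1 * V0 (yc t) s.2) := by
      generalize quad (tu t) (tv t) (tq t) (0, 1) = A
      generalize quad (tu t) (tv t) (tq t) (1, 1) = B
      simp only [quad, Matrix.cons_val_zero, Matrix.cons_val_one, Matrix.cons_val]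
      field_simp
    rw [e', e]
    simp only [quad]
    rw [hu s.1, hu s.2, hv s.1, hv s.2]
    ring
  have e3 : wS t j = wdg (tu t) (tv t) j.1 *
    (vec (tu t) (tv t) (tx t) j.2.1 * quad (tu t) (tv t) (tq t) j.2.2) := rfl
  rw [e3, e0, e1, e2]
  simp only [ptY]
  ring

theorem ptX_eq (j : Co (r + 2)) : ptX (tu t) (tv t) (mulc (tx t) (tq t)) j =
    (P01 t * (X0 t * Q00 t)) * xOf (yc t) j := by
  have e : wS t = (P01 t * (X0 t * Q00 t)) •
      ptY (U0 (yc t)) (V0 (yc t)) ![1, yc t (.inr 0)] ![1, yc t (.inr 1), yc t (.inr 2)] :=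
    funext fun j => wS_eq t h1 h2 h3 j
  have e1 : ptX (tu t) (tv t) (mulc (tx t) (tq t)) = symm (wS t) := (symm_ptY _ _ _ _).symm
  rw [e1, e, symm_smul, symm_ptY]
  rfl

theorem rho_eq : (yc t (.inr 0) ^ 2 - 2 * yc t (.inr 1) * yc t (.inr 0) + yc t (.inr 2)) *
    (X0 t ^ 2 * Q00 t) = RR t * P01 t ^ 2 := by
  rw [yc_0 t h1 h2 h3, yc_1 t h1 h2 h3, yc_2 t h1 h2 h3]
  have e1 : vec (tu t) (tv t) (tx t) 1 = tx t 0 * tu t 1 + tx t 1 * tv t 1 := rfl
  have e2 : quad (tu t) (tv t) (tq t) (0, 1) = tq t 0 * (tu t 0 * tu t 1) +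
    tq t 1 * (tu t 0 * tv t 1 + tv t 0 * tu t 1) + tq t 2 * (tv t 0 * tv t 1) := rfl
  have e3 : quad (tu t) (tv t) (tq t) (1, 1) = tq t 0 * (tu t 1 * tu t 1) +
    tq t 1 * (tu t 1 * tv t 1 + tv t 1 * tu t 1) + tq t 2 * (tv t 1 * tv t 1) := rfl
  have e4 : Q00 t = tq t 0 * (tu t 0 * tu t 0) + tq t 1 * (tu t 0 * tv t 0 + tv t 0 * tu t 0) +
    tq t 2 * (tv t 0 * tv t 0) := rfl
  have e5 : X0 t = tx t 0 * tu t 0 + tx t 1 * tv t 0 := rfl
  have e6 : P01 t = tu t 0 * tv t 1 - tv t 0 * tu t 1 := rfl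
  have e7 : (vec (tu t) (tv t) (tx t) 1 / X0 t) ^ 2 -
      2 * (quad (tu t) (tv t) (tq t) (0, 1) / Q00 t) * (vec (tu t) (tv t) (tx t) 1 / X0 t) +
      quad (tu t) (tv t) (tq t) (1, 1) / Q00 t =
      (vec (tu t) (tv t) (tx t) 1 ^ 2 * Q00 t - 2 * quad (tu t) (tv t) (tq t) (0, 1) *
        vec (tu t) (tv t) (tx t) 1 * X0 t + quad (tu t) (tv t) (tq t) (1, 1) * X0 t ^ 2) /
        (X0 t ^ 2 * Q00 t) := by
    field_simp
  rw [e7, div_mul_cancel₀ _ (mul_ne_zero (pow_ne_zero _ h2) h3), e1, e2, e3, e4, e5, e6]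
  unfold RR
  ring

end

section
variable {k L : Type} [Field k] [CharZero k] [Field L] [Algebra k L] {r : ℕ}

theorem ne_P (t : Sy r → L) (ht : AlgebraicIndependent k t) : P01 t ≠ 0 := by
  intro h
  have e : aeval t (P01 (X : Sy r → MvPolynomial (Sy r) k)) = P01 t := by
    simp [P01, wdg, tu, tv]
  have h1 := algebraicIndependent_iff.1 ht _ (e.trans h)
  have h2 := congrArg (eval (Sum.elim (fun i => if i = 0 then (1 : k) else 0)
    (Sum.elim (fun i => if i = 1 then (1 : k) else 0) fun _ => 0))) h1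
  simp [P01, wdg, tu, tv] at h2

theorem ne_X (t : Sy r → L) (ht : AlgebraicIndependent k t) : X0 t ≠ 0 := by
  intro h
  have e : aeval t (X0 (X : Sy r → MvPolynomial (Sy r) k)) = X0 t := by
    simp [X0, vec, tu, tv, tx]
  have h1 := algebraicIndependent_iff.1 ht _ (e.trans h)
  have h2 := congrArg (eval (Sum.elim (fun i => if i = 0 then (1 : k) else 0)
    (Sum.elim (fun i => 0) (Sum.elim (fun i => if i = 0 then (1 : k) else 0) fun _ => 0)))) h1
  simp [X0, vec, tu, tv, tx] at h2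

theorem ne_Q (t : Sy r → L) (ht : AlgebraicIndependent k t) : Q00 t ≠ 0 := by
  intro h
  have e : aeval t (Q00 (X : Sy r → MvPolynomial (Sy r) k)) = Q00 t := by
    simp [Q00, quad, tu, tv, tq]
  have h1 := algebraicIndependent_iff.1 ht _ (e.trans h)
  have h2 := congrArg (eval (Sum.elim (fun i => if i = 0 then (1 : k) else 0)
    (Sum.elim (fun i => 0) (Sum.elim (fun i => 0) fun i => if i = 0 then (1 : k) else 0)))) h1
  simp [Q00, quad, tu, tv, tq] at h2

end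

theorem done : S_FORM := by
  intro k K L _ _ _ _ _ _ _ _ r Y x t hC hE
  have h1 := ne_P t hE.ind
  have h2 := ne_X t hE.ind
  have h3 := ne_Q t hE.ind
  have hy : ∀ j, algebraMap K L (Y j) = yc t j := hE.coord
  refine ⟨rfl, h1, h2, h3, ?_, ?_⟩
  · obtain ⟨c, hc, hx⟩ := hC.eq
    have hne : P01 t * (X0 t * Q00 t) ≠ 0 := mul_ne_zero h1 (mul_ne_zero h2 h3)
    refine ⟨algebraMap K L c / (P01 t * (X0 t * Q00 t)), div_ne_zero
      ((map_ne_zero (algebraMap K L)).2 hc) hne, ?_⟩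
    intro j
    have e : algebraMap K L (xOf Y j) = xOf (yc t) j := by
      have eU : ∀ i, algebraMap K L (U0 Y i) = U0 (yc t) i := by
        intro i
        refine Fin.cases ?_ (fun i => ?_) i
        · simp [U0]
        · refine Fin.cases ?_ (fun i => ?_) i
          · simp [U0]
          · simp [U0, hy]
      have eV : ∀ i, algebraMap K L (V0 Y i) = V0 (yc t) i := by
        intro i
        refine Fin.cases ?_ (fun i => ?_) i
        · simp [V0]
        · refine Fin.cases ?_ (fun i => ?_) i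
          · simp [V0]
          · simp [V0, hy]
      have e2 : algebraMap K L 2 = 2 := map_ofNat _ 2
      have e3 : algebraMap K L 3 = 3 := map_ofNat _ 3
      simp [xOf, ptX, wdg, cub, mulc, eU, eV, hy, e2, e3]
    rw [hx]
    simp only [map_mul]
    rw [e, ptX_eq t h1 h2 h3]
    field_simp
  · have e : algebraMap K L (aeval Y (rho k r)) =
        yc t (.inr 0) ^ 2 - 2 * yc t (.inr 1) * yc t (.inr 0) + yc t (.inr 2) := by
      have e2 : algebraMap K L 2 = 2 := map_ofNat _ 2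
      rw [← hy, ← hy, ← hy]
      simp [rho, e2]
    rw [e]
    exact rho_eq t h1 h2 h3

end Pool.Agent.Y166.LT.FORM
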