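import Pool.Agent.Y166.LT.Stm
import Pool.Agent.Y198.MC.Fin

/-! The assembly of the literal version. -/

set_option autoImplicit false
set_option linter.unusedSectionVars false

namespace Pool.Agent.Y166.LT

open MvPolynomial Pool.Agent.Y166.GM Pool.Agent.Y166.SM Pool.Agent.Y198.MC
open FF (Place)

section
variable {k : Type} [Field k] [IsAlgClosed k] [CharZero k]

/-- The Iitaka dimension is zero for the covering. -/
theorem not_kap (h2 : S_KAP2) (h3 : S_KAP3) (hE : S_EMB) {K : Type} [Field K] [Algebra k K]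
    {r : ℕ} (hr : 1 ≤ r) {Y : Ch r → K} {x : Co (r + 2) → K} (hc : Ctx k K r Y x) :
    ¬ KappaPos (k := k) (2 * r + 3) x := by
  rintro ⟨φ, hφ, hreg⟩
  obtain ⟨L, _, _, _, _, t, ht⟩ := hE k K r Y x hc
  exact hφ (h3 k K L r Y x t hc ht φ (h2 k K L r hr Y x t hc ht φ hreg))

/-- Birational morphisms are not breaking. -/
theorem not_brkL_bir (hD : S_DOM) {r : ℕ} (hr : 1 ≤ r) {n : ℕ}
    {Z : Set (PP k (Fin (n + 1)))} {f : PP k (Fin (n + 1)) → PP k (Co (r + 2))} (hZ : IsProjVar Z)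
    (hf : IsMorphism Z f) (hfX : Set.MapsTo f Z (XX k (r + 2)))
    (hb : Birational Z (XX k (r + 2)) f) : ¬ BreakingL (2 * r + 3) (XX k (r + 2)) Z f := by
  rintro (h1 | h1)
  · exact h1 (hD k r n hr Z f hZ hf hfX (Or.inl hb))
  · exact h1.1 hb

/-- Morphisms birational to the covering are not breaking. -/
theorem not_brkL_over (hD : S_DOM) (hM : S_MODEL) (h2 : S_KAP2) (h3 : S_KAP3) (hE : S_EMB)
    (hF : S_FACE) {r : ℕ} (hr : 1 ≤ r) {n : ℕ}
    {Z : Set (PP k (Fin (n + 1)))} {f : PP k (Fin (n + 1)) → PP k (Co (r + 2))} (hZ : IsProjVar Z)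
    (hf : IsMorphism Z f) (hfX : Set.MapsTo f Z (XX k (r + 2)))
    (hb : BirOver Z f (YY k (r + 2)) (cov k (r + 2))) :
    ¬ BreakingL (2 * r + 3) (XX k (r + 2)) Z f := by
  rintro (h1 | ⟨-, K, _, _, y, x, hm, h1⟩)
  · exact h1 (hD k r n hr Z f hZ hf hfX (Or.inr hb))
  · obtain ⟨Y, hY⟩ := hM k K r n hr Z f hZ hf hb y x hm
    rcases h1 with h1 | h1
    · exact not_kap h2 h3 hE hr hY h1
    · exact hF k K r hr Y x hY h1

/-- The components are not accumulating. -/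
theorem not_accL {N : ℕ} (dim : ℕ) (hMem : StmMem) (hNF : Pool.Agent.Y198.MC.StmNF) {e d : ℕ} {i : St e}
    (hg : Good k N e d i)
    (hlift : ∀ (n : ℕ) (Y : Set (PP k (Fin (n + 1)))), IsProjVar Y →
      ∀ (f : PP k (Fin (n + 1)) → PP k (Co N)), IsMorphism Y f →
      Set.MapsTo f Y (XX k N) → GenFinite Y f →
      ∀ (e₁ : ℕ) (Ns : Set (PP k (Fin (n + 1) × Fin (e₁ + 1)))), Ns ⊆ Mor Y e₁ →
      stM k N e d i ⊆ closure {γ | γ ∈ stM k N e d i ∧ ∃ g ∈ Ns, IsCompBi f g γ} →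
      ¬ BreakingL dim (XX k N) Y f) :
    ¬ AccL dim (cmp k N e d i) := by
  rintro ⟨n, Y, f, hY, hf, hfX, hfin, hb, e₁, Nn, _, _, hdom⟩
  refine hlift n Y hY f hf hfX hfin e₁ (Subtype.val '' Nn) (by
    rintro _ ⟨g, _, rfl⟩
    exact g.2) ?_ hb
  have h1 := comp_dense _ (stM k N e d) (st_sub hMem N e d) (st_cov hNF N e d) i hg.irr hg.sep
    {h | ∃ g ∈ Nn, IsCompBi f g.1 h.1} hdom
  refine h1.trans (closure_mono ?_)
  rintro x ⟨hx, h, ⟨g, hg1, hg2⟩, rfl⟩
  exact ⟨hx, g.1, ⟨g, hg1, rfl⟩, hg2⟩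

/-- There are two Manin components. -/
theorem two_maninL (hMem : StmMem) (hNF : Pool.Agent.Y198.MC.StmNF) (hI1 : StmIrr1) (hI2 : StmIrr2)
    (hD2 : StmDense2) (hS : StmSep) (hT : StmTr) (hL1 : StmLift1)
    (hL2 : StmLift2) (hD : S_DOM) (hM : S_MODEL) (h2 : S_KAP2) (h3 : S_KAP3) (hE : S_EMB)
    (hF : S_FACE) {r : ℕ} (hr : 1 ≤ r) (m n : ℕ) (hm : 1 ≤ m) (hmn : m + 5 ≤ n) :
    2 ≤ (maninL (2 * r + 3) (XX k (r + 2)) (m + n) (m + 2 * n)).encard := by
  have h1 : 2 * ((m + n) / 2) ≤ m + n := by omega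
  have h2' : 2 * m ≤ m + n := by omega
  have g1 : Good k (r + 2) (m + n) (m + 2 * n) (ist (m + n) ((m + n) / 2) h1) :=
    good1 hS hI1 (r + 2) _ _ _ (by omega) h1 (by omega) (by omega)
  have g2 : Good k (r + 2) (m + n) (m + 2 * n) (ist (m + n) m h2') :=
    good2 hS hI2 hD2 hT (r + 2) m n (by omega) (by omega) h2'
  have hne : ist (m + n) ((m + n) / 2) h1 ≠ ist (m + n) m h2' := by
    intro h
    have h3 : (m + n) / 2 = m := congrArg (fun i : St (m + n) => ((i.1 : ℕ))) h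
    omega
  have hsub : ({cmp k (r + 2) (m + n) (m + 2 * n) (ist (m + n) ((m + n) / 2) h1),
      cmp k (r + 2) (m + n) (m + 2 * n) (ist (m + n) m h2')} :
        Set (Set (MorBi (XX k (r + 2)) (m + n) (m + 2 * n))))
      ⊆ maninL (2 * r + 3) (XX k (r + 2)) (m + n) (m + 2 * n) := by
    rintro M (rfl | rfl)
    · refine ⟨cmp_mem hMem hNF g1, not_accL _ hMem hNF g1 ?_⟩
      intro n' Y hY f hf hfX hfin e₁ Ns hNs hdom
      exact not_brkL_bir hD hr hY hf hfX (hL1 k (r + 2) (m + n) (m + 2 * n) ((m + n) / 2)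
        (m + n - (m + n) / 2) (by omega) (by omega) (by omega) (by omega) (by omega)
        n' Y hY f hf hfX hfin e₁ Ns hNs hdom)
    · refine ⟨cmp_mem hMem hNF g2, not_accL _ hMem hNF g2 ?_⟩
      intro n' Y hY f hf hfX hfin e₁ Ns hNs hdom
      have e1 : m + n - m = n := by omega
      have e2 : stM k (r + 2) (m + n) (m + 2 * n) (ist (m + n) m h2') =
          Strat k (r + 2) (m + n) (m + 2 * n) m n := by
        show Strat k (r + 2) (m + n) (m + 2 * n) m (m + n - m) = _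
        rw [e1]
      rw [e2] at hdom
      rcases hL2 k (r + 2) m n (by omega) hm (by omega) n' Y hY f hf hfX hfin e₁ Ns hNs hdom
        with h | h
      · exact not_brkL_bir hD hr hY hf hfX h
      · exact not_brkL_over hD hM h2 h3 hE hF hr hY hf hfX h
  have h3 := Set.encard_le_encard hsub
  rw [Set.encard_pair (cmp_ne hMem hne g1)] at h3
  exact h3

end

end Pool.Agent.Y166.LT
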